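import Mathlib

set_option autoImplicit false

open Filter Topology Set

namespace Pool.Agent.Helper908Ray

/-- Rotation by a quarter turn. -/
def J (v : ℝ × ℝ) : ℝ × ℝ := (-v.2, v.1)

/-- The group of compactly supported piecewise linear homeomorphisms of the plane, written as in
the frozen statements of the problem. -/
def PLc : Subgroup (Equiv.Perm (ℝ × ℝ)) :=
  Subgroup.closure {σ : Equiv.Perm (ℝ × ℝ) |
    Continuous ⇑σ ∧ Continuous ⇑σ.symm ∧
    ∃ P : Finset (Finset (ℝ × ℝ)),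
      (∀ x : ℝ × ℝ, x ∉ (⋃ s ∈ P, convexHull ℝ (↑s : Set (ℝ × ℝ))) → σ x = x) ∧
      ∀ s ∈ P, ∃ A : (ℝ × ℝ) →ᵃ[ℝ] (ℝ × ℝ),
        ∀ x ∈ convexHull ℝ (↑s : Set (ℝ × ℝ)), σ x = A x}

/-- `A` is the linear part of `f` at `x` on the side `s` (`s = 1` left, `s = -1` right) of the
ray in direction `v`: on all small thin sectors on that side of the ray `f` is affine with
linear part `A`. -/
def IsSidePart (f : ℝ × ℝ → ℝ × ℝ) (x v : ℝ × ℝ) (s : ℝ)
    (A : (ℝ × ℝ) →ₗ[ℝ] (ℝ × ℝ)) : Prop :=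
  ∃ δ : ℝ, 0 < δ ∧ ∀ t ε : ℝ, 0 < t → t < δ → 0 < ε → ε < δ →
    f (x + t • (v + (s * ε) • J v)) = f x + t • A (v + (s * ε) • J v)

/-- Small pairs of positive reals. -/
def small : Filter (ℝ × ℝ) := 𝓝[>] (0 : ℝ) ×ˢ 𝓝[>] (0 : ℝ)

lemma small_iff (p : ℝ × ℝ → Prop) :
    (∀ᶠ q in small, p q) ↔
      ∃ δ : ℝ, 0 < δ ∧ ∀ t ε : ℝ, 0 < t → t < δ → 0 < ε → ε < δ → p (t, ε) := by
  have h := ((nhdsGT_basis (0 : ℝ)).prod_self)
  unfold small
  rw [h.eventually_iff]
  constructor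
  · rintro ⟨δ, hδ, h⟩
    exact ⟨δ, hδ, fun t ε h1 h2 h3 h4 => h ⟨⟨h1, h2⟩, ⟨h3, h4⟩⟩⟩
  · rintro ⟨δ, hδ, h⟩
    refine ⟨δ, hδ, ?_⟩
    rintro ⟨t, ε⟩ ⟨⟨h1, h2⟩, ⟨h3, h4⟩⟩
    exact h t ε h1 h2 h3 h4

instance : NeBot small := by unfold small; infer_instance

lemma small_le : small ≤ 𝓝 ((0 : ℝ), (0 : ℝ)) := by
  rw [nhds_prod_eq]
  exact Filter.prod_mono nhdsWithin_le_nhds nhdsWithin_le_nhds

lemma small_pos : ∀ᶠ q in small, 0 < q.1 ∧ 0 < q.2 := by
  rw [small_iff]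
  exact ⟨1, one_pos, fun t ε h1 _ h3 _ => ⟨h1, h3⟩⟩

/-- A point of the thin sector. -/
def tp (x v : ℝ × ℝ) (s : ℝ) (q : ℝ × ℝ) : ℝ × ℝ := x + q.1 • (v + (s * q.2) • J v)

lemma isSidePart_iff (f : ℝ × ℝ → ℝ × ℝ) (x v : ℝ × ℝ) (s : ℝ) (A : (ℝ × ℝ) →ₗ[ℝ] (ℝ × ℝ)) :
    IsSidePart f x v s A ↔
      ∀ᶠ q in small, f (tp x v s q) = f x + A (tp x v s q - x) := by
  rw [small_iff]
  unfold IsSidePart tp
  simp only [add_sub_cancel_left, map_smul]

lemma continuous_tp (x v : ℝ × ℝ) (s : ℝ) : Continuous (tp x v s) := by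
  unfold tp; fun_prop

lemma tendsto_tp (x v : ℝ × ℝ) (s : ℝ) : Tendsto (tp x v s) small (𝓝 x) := by
  have h := (continuous_tp x v s).tendsto ((0 : ℝ), (0 : ℝ))
  have h2 : tp x v s (0, 0) = x := by simp [tp]
  rw [h2] at h
  exact h.mono_left small_le

lemma span_J (v : ℝ × ℝ) (hv : v ≠ 0) (w : ℝ × ℝ) :
    w = ((w.1 * v.1 + w.2 * v.2) / (v.1 ^ 2 + v.2 ^ 2)) • v
      + ((w.2 * v.1 - w.1 * v.2) / (v.1 ^ 2 + v.2 ^ 2)) • J v := by
  have h : v.1 ^ 2 + v.2 ^ 2 ≠ 0 := by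
    intro h
    apply hv
    have h1 : v.1 = 0 := by nlinarith [sq_nonneg v.1, sq_nonneg v.2]
    have h2 : v.2 = 0 := by nlinarith [sq_nonneg v.1, sq_nonneg v.2]
    exact Prod.ext h1 h2
  ext
  · simp [J]; field_simp; ring
  · simp [J]; field_simp; ring

lemma linear_eq_zero {M : Type*} [AddCommGroup M] [Module ℝ M] (L : (ℝ × ℝ) →ₗ[ℝ] M) (v : ℝ × ℝ)
    (hv : v ≠ 0) (h1 : L v = 0) (h2 : L (J v) = 0) : L = 0 := by
  ext1
  · ext
    rw [LinearMap.comp_apply, span_J v hv (LinearMap.inl ℝ ℝ ℝ 1)]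
    simp [h1, h2]
  · ext
    rw [LinearMap.comp_apply, span_J v hv (LinearMap.inr ℝ ℝ ℝ 1)]
    simp [h1, h2]

/-- The sign of an affine functional is constant on thin sectors. -/
lemma sign_small (a : (ℝ × ℝ) →ᵃ[ℝ] ℝ) (ha : a.linear ≠ 0) (x v : ℝ × ℝ) (hv : v ≠ 0) (s : ℝ)
    (hs : s ≠ 0) :
    (∀ᶠ q in small, 0 < a (tp x v s q)) ∨ (∀ᶠ q in small, a (tp x v s q) < 0) := by
  have hform : ∀ q, a (tp x v s q) = a x + q.1 * (a.linear v + s * q.2 * a.linear (J v)) := by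
    intro q
    have : a (tp x v s q) = a ((q.1 • (v + (s * q.2) • J v)) +ᵥ x) := by
      simp [tp, add_comm]
    rw [this, AffineMap.map_vadd]
    simp [mul_add, add_comm]
  by_cases hx : a x = 0
  · by_cases h1 : a.linear v = 0
    · have h2 : a.linear (J v) ≠ 0 := fun h2 => ha (linear_eq_zero _ v hv h1 h2)
      have h3 : s * a.linear (J v) ≠ 0 := mul_ne_zero hs h2
      have hform' : ∀ q : ℝ × ℝ, a (tp x v s q) = (q.1 * q.2) * (s * a.linear (J v)) := by
        intro q; rw [hform, hx, h1]; ring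
      rcases lt_or_gt_of_ne h3 with h | h
      · right
        filter_upwards [small_pos] with q hq
        rw [hform']
        exact mul_neg_of_pos_of_neg (mul_pos hq.1 hq.2) h
      · left
        filter_upwards [small_pos] with q hq
        rw [hform']
        exact mul_pos (mul_pos hq.1 hq.2) h
    · have ht : Tendsto (fun q : ℝ × ℝ => a.linear v + s * q.2 * a.linear (J v)) small
          (𝓝 (a.linear v)) := by
        have hc : Continuous (fun q : ℝ × ℝ => a.linear v + s * q.2 * a.linear (J v)) := by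
          fun_prop
        have := hc.tendsto ((0 : ℝ), (0 : ℝ))
        simp only [mul_zero, zero_mul, add_zero] at this
        exact this.mono_left small_le
      rcases lt_or_gt_of_ne h1 with h | h
      · right
        filter_upwards [small_pos, ht.eventually (gt_mem_nhds h)] with q hq hq2
        rw [hform, hx, zero_add]
        exact mul_neg_of_pos_of_neg hq.1 hq2
      · left
        filter_upwards [small_pos, ht.eventually (lt_mem_nhds h)] with q hq hq2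
        rw [hform, hx, zero_add]
        exact mul_pos hq.1 hq2
  · have hc : Continuous a := a.continuous_of_finiteDimensional
    have ht : Tendsto (fun q => a (tp x v s q)) small (𝓝 (a x)) :=
      (hc.tendsto x).comp (tendsto_tp x v s)
    rcases lt_or_gt_of_ne hx with h | h
    · right; exact ht.eventually (gt_mem_nhds h)
    · left; exact ht.eventually (lt_mem_nhds h)

end Pool.Agent.Helper908Ray
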