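import Pool.Agent.helper908_ray.Basic

set_option autoImplicit false

open Filter Topology Set

namespace Pool.Agent.Helper908Ray

lemma thin_poly {ι : Type*} [Finite ι] (a : ι → (ℝ × ℝ) →ᵃ[ℝ] ℝ) (ha : ∀ i, (a i).linear ≠ 0)
    (x v : ℝ × ℝ) (hv : v ≠ 0) (s : ℝ) (hs : s ≠ 0) :
    (∀ᶠ q in small, ∀ i, 0 ≤ a i (tp x v s q)) ∨ (∀ᶠ q in small, ¬ ∀ i, 0 ≤ a i (tp x v s q)) := by
  by_cases h : ∃ i, ∀ᶠ q in small, a i (tp x v s q) < 0
  · right
    obtain ⟨i, hi⟩ := h
    filter_upwards [hi] with q hq hall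
    exact absurd (hall i) (not_le.mpr hq)
  · left
    rw [eventually_all]
    intro i
    rcases sign_small (a i) (ha i) x v hv s hs with h1 | h1
    · filter_upwards [h1] with q hq
      exact hq.le
    · exact absurd ⟨i, h1⟩ h

lemma deg_card (t : Finset (ℝ × ℝ)) (ht : t.card ≤ 2) :
    ∃ a : (ℝ × ℝ) →ᵃ[ℝ] ℝ, a.linear ≠ 0 ∧ ∀ x ∈ convexHull ℝ (t : Set (ℝ × ℝ)), a x = 0 := by
  have key : ∃ a : (ℝ × ℝ) →ᵃ[ℝ] ℝ, a.linear ≠ 0 ∧ ∀ x ∈ t, a x = 0 := by
    have mk : ∀ (L : (ℝ × ℝ) →ₗ[ℝ] ℝ) (p : ℝ × ℝ), ∃ a : (ℝ × ℝ) →ᵃ[ℝ] ℝ,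
        a.linear = L ∧ ∀ x, a x = L x - L p := by
      intro L p
      refine ⟨L.toAffineMap - AffineMap.const ℝ (ℝ × ℝ) (L p), ?_, ?_⟩
      · ext <;> simp
      · intro x; simp
    have hfst : (LinearMap.fst ℝ ℝ ℝ) ≠ 0 := by
      intro h
      have := LinearMap.congr_fun h ((1 : ℝ), (0 : ℝ))
      simp at this
    interval_cases h : t.card
    · rw [Finset.card_eq_zero] at h
      subst h
      obtain ⟨a, ha, _⟩ := mk (LinearMap.fst ℝ ℝ ℝ) 0
      exact ⟨a, ha ▸ hfst, by simp⟩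
    · rw [Finset.card_eq_one] at h
      obtain ⟨p, rfl⟩ := h
      obtain ⟨a, ha, ha2⟩ := mk (LinearMap.fst ℝ ℝ ℝ) p
      refine ⟨a, ha ▸ hfst, ?_⟩
      intro x hx
      rw [Finset.mem_singleton] at hx
      subst hx
      rw [ha2, sub_self]
    · rw [Finset.card_eq_two] at h
      obtain ⟨p, q, hpq, rfl⟩ := h
      obtain ⟨a, ha, ha2⟩ := mk ((q.1 - p.1) • LinearMap.snd ℝ ℝ ℝ - (q.2 - p.2) •
        LinearMap.fst ℝ ℝ ℝ) p
      refine ⟨a, ?_, ?_⟩
      · rw [ha]
        intro h0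
        apply hpq
        have e1 := LinearMap.congr_fun h0 ((1 : ℝ), (0 : ℝ))
        have e2 := LinearMap.congr_fun h0 ((0 : ℝ), (1 : ℝ))
        simp at e1 e2
        ext <;> linarith
      · intro x hx
        rw [Finset.mem_insert, Finset.mem_singleton] at hx
        rcases hx with rfl | rfl
        · rw [ha2, sub_self]
        · rw [ha2]; simp; ring
  obtain ⟨a, ha, ha2⟩ := key
  refine ⟨a, ha, ?_⟩
  intro x hx
  have hsub : (t : Set (ℝ × ℝ)) ⊆ a ⁻¹' {0} := fun y hy => ha2 y hy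
  have hconv : Convex ℝ (a ⁻¹' ({0} : Set ℝ)) := (convex_singleton (0 : ℝ)).affine_preimage a
  exact convexHull_min hsub hconv hx

/-- Convex hulls of affinely independent finite sets are polygons or thin. -/
lemma hull_cases (t : Finset (ℝ × ℝ)) (ht : AffineIndependent ℝ ((↑) : t → ℝ × ℝ)) :
    t.card ≤ 2 ∨ ∃ a : t → (ℝ × ℝ) →ᵃ[ℝ] ℝ, (∀ i, (a i).linear ≠ 0) ∧
      (∀ x, x ∈ convexHull ℝ (t : Set (ℝ × ℝ)) ↔ ∀ i, 0 ≤ a i x) ∧
      (interior (convexHull ℝ (t : Set (ℝ × ℝ)))).Nonempty := by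
  by_cases hc : t.card ≤ 2
  · exact Or.inl hc
  right
  have hle : Fintype.card t ≤ Module.finrank ℝ (ℝ × ℝ) + 1 := by
    have := ht.card_le_finrank_succ
    refine this.trans ?_
    exact Nat.succ_le_succ (Submodule.finrank_le _)
  have hfr : Module.finrank ℝ (ℝ × ℝ) = 2 := by simp
  have hcard : Fintype.card t = Module.finrank ℝ (ℝ × ℝ) + 1 := by
    rw [Fintype.card_coe] at hle ⊢
    omega
  have hspan := (ht.affineSpan_eq_top_iff_card_eq_finrank_add_one).mpr hcard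
  let b : AffineBasis t ℝ (ℝ × ℝ) := ⟨(↑), ht, hspan⟩
  have hb : (Set.range b : Set (ℝ × ℝ)) = (t : Set (ℝ × ℝ)) := by
    change Set.range ((↑) : t → ℝ × ℝ) = _
    exact Subtype.range_coe
  have hnt : Nontrivial t := by
    rw [← Fintype.one_lt_card_iff_nontrivial]
    omega
  refine ⟨fun i => b.coord i, ?_, ?_, ?_⟩
  · intro i h0
    obtain ⟨j, hj⟩ := exists_ne i
    have e1 : b.coord i (b i) = 1 := b.coord_apply_eq i
    have e2 : b.coord i (b j) = 0 := b.coord_apply_ne hj.symm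
    have e3 : b.coord i (b i) = b.coord i (b j) := by
      have := (b.coord i).linearMap_vsub (b i) (b j)
      rw [h0] at this
      simp at this
      linarith
    rw [e1, e2] at e3
    exact one_ne_zero e3
  · intro x
    rw [← hb, b.convexHull_eq_nonneg_coord]
    rfl
  · rw [← hb]
    exact ⟨_, b.centroid_mem_interior_convexHull⟩


/-- An injective map that is affine on thin sectors has injective linear part. -/
lemma inj_linear (f : ℝ × ℝ → ℝ × ℝ) (hf : Function.Injective f) (x v : ℝ × ℝ) (hv : v ≠ 0)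
    (s : ℝ) (hs : s ≠ 0) (A : (ℝ × ℝ) →ᵃ[ℝ] (ℝ × ℝ))
    (h : ∀ᶠ q in small, f (tp x v s q) = A (tp x v s q)) : Function.Injective A.linear := by
  rw [injective_iff_map_eq_zero]
  intro w hw
  by_contra hw0
  obtain ⟨δ, hδ, h⟩ := (small_iff _).mp h
  -- w = α v + β J v
  obtain ⟨α, β, hαβ⟩ : ∃ α β : ℝ, w = α • v + β • J v := ⟨_, _, span_J v hv w⟩
  have hsq : s * s⁻¹ = 1 := mul_inv_cancel₀ hs
  -- the perturbed parameters
  let T : ℝ → ℝ := fun η => δ / 2 + η * α
  let Ep : ℝ → ℝ := fun η => (δ / 2 * (δ / 2) + s⁻¹ * η * β) / T η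
  have hT : Tendsto T (𝓝[≠] 0) (𝓝 (δ / 2)) := by
    have : Continuous T := by fun_prop
    have h2 := this.tendsto 0
    simp only [T, zero_mul, add_zero] at h2
    exact h2.mono_left nhdsWithin_le_nhds
  have hE : Tendsto Ep (𝓝[≠] 0) (𝓝 (δ / 2)) := by
    have hnum : Tendsto (fun η : ℝ => δ / 2 * (δ / 2) + s⁻¹ * η * β) (𝓝[≠] 0)
        (𝓝 (δ / 2 * (δ / 2))) := by
      have hc : Continuous (fun η : ℝ => δ / 2 * (δ / 2) + s⁻¹ * η * β) := by fun_prop
      have h2 := hc.tendsto 0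
      simp only [mul_zero, zero_mul, add_zero] at h2
      exact h2.mono_left nhdsWithin_le_nhds
    have hd : δ / 2 ≠ 0 := by positivity
    have := hnum.div hT hd
    rwa [mul_div_assoc, div_self hd, mul_one] at this
  have hpos : (0 : ℝ) < δ / 2 := by positivity
  have hlt : δ / 2 < δ := by linarith
  have ev : ∀ᶠ η in 𝓝[≠] (0 : ℝ), 0 < T η ∧ T η < δ ∧ 0 < Ep η ∧ Ep η < δ ∧ η ≠ 0 := by
    filter_upwards [hT.eventually (lt_mem_nhds hpos), hT.eventually (gt_mem_nhds hlt),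
      hE.eventually (lt_mem_nhds hpos), hE.eventually (gt_mem_nhds hlt),
      eventually_mem_nhdsWithin] with η h1 h2 h3 h4 h5
    exact ⟨h1, h2, h3, h4, h5⟩
  obtain ⟨η, h1, h2, h3, h4, h5⟩ := ev.exists
  have e1 := h (T η) (Ep η) h1 h2 h3 h4
  have e2 := h (δ / 2) (δ / 2) hpos hlt hpos hlt
  have hkey : tp x v s (T η, Ep η) = (η • w) +ᵥ tp x v s (δ / 2, δ / 2) := by
    have hTE : T η * Ep η = δ / 2 * (δ / 2) + s⁻¹ * η * β := by
      simp only [Ep]; field_simp
    have h6 : T η * (s * Ep η) = s * (δ / 2 * (δ / 2)) + η * β := by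
      calc T η * (s * Ep η) = s * (T η * Ep η) := by ring
        _ = s * (δ / 2 * (δ / 2)) + (s * s⁻¹) * η * β := by rw [hTE]; ring
        _ = _ := by rw [hsq]; ring
    simp only [tp, hαβ, smul_add, smul_smul, vadd_eq_add]
    rw [h6]
    simp only [T]
    module
  have e3 : A (tp x v s (T η, Ep η)) = A (tp x v s (δ / 2, δ / 2)) := by
    rw [hkey, AffineMap.map_vadd, map_smul, hw]; simp
  have e4 : f (tp x v s (T η, Ep η)) = f (tp x v s (δ / 2, δ / 2)) := by
    rw [e1, e2, e3]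
  have e5 := hf e4
  rw [hkey] at e5
  have e6 : η • w = 0 := by simpa using e5
  rcases smul_eq_zero.mp e6 with h7 | h7
  · exact h5 h7
  · exact hw0 h7

/-- Thin sectors with respect to a generator of the group. -/
lemma gen_thin (σ : Equiv.Perm (ℝ × ℝ)) (P : Finset (Finset (ℝ × ℝ)))
    (h1 : ∀ x : ℝ × ℝ, x ∉ (⋃ s ∈ P, convexHull ℝ (↑s : Set (ℝ × ℝ))) → σ x = x)
    (h2 : ∀ s ∈ P, ∃ A : (ℝ × ℝ) →ᵃ[ℝ] (ℝ × ℝ),
        ∀ x ∈ convexHull ℝ (↑s : Set (ℝ × ℝ)), σ x = A x)
    (x v : ℝ × ℝ) (hv : v ≠ 0) (s : ℝ) (hs : s ≠ 0) :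
    ∃ A : (ℝ × ℝ) →ᵃ[ℝ] (ℝ × ℝ), ∀ᶠ q in small, σ (tp x v s q) = A (tp x v s q) := by
  have claim : ∀ t ∈ P, (∃ A : (ℝ × ℝ) →ᵃ[ℝ] (ℝ × ℝ), ∀ᶠ q in small,
      σ (tp x v s q) = A (tp x v s q)) ∨
      (∀ᶠ q in small, tp x v s q ∉ convexHull ℝ (↑t : Set (ℝ × ℝ))) := by
    intro t ht
    obtain ⟨A, hA⟩ := h2 t ht
    by_cases hex : ∃ A : (ℝ × ℝ) →ᵃ[ℝ] (ℝ × ℝ), ∀ᶠ q in small, σ (tp x v s q) = A (tp x v s q)
    · exact Or.inl hex
    right
    have hall : ∀ u ∈ t.powerset, ∀ᶠ q in small,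
        AffineIndependent ℝ ((↑) : u → ℝ × ℝ) → tp x v s q ∉ convexHull ℝ (u : Set (ℝ × ℝ)) := by
      intro u hu
      by_cases hai : AffineIndependent ℝ ((↑) : u → ℝ × ℝ)
      · rcases hull_cases u hai with hcard | ⟨a, ha, hmem, _⟩
        · obtain ⟨a, ha, ha0⟩ := deg_card u hcard
          rcases sign_small a ha x v hv s hs with h | h
          · filter_upwards [h] with q hq _ hq2
            rw [ha0 _ hq2] at hq; exact lt_irrefl _ hq
          · filter_upwards [h] with q hq _ hq2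
            rw [ha0 _ hq2] at hq; exact lt_irrefl _ hq
        · rcases thin_poly a ha x v hv s hs with h | h
          · exfalso
            apply hex
            refine ⟨A, ?_⟩
            filter_upwards [h] with q hq
            apply hA
            apply convexHull_mono _ ((hmem _).mpr hq)
            exact_mod_cast Finset.mem_powerset.mp hu
          · filter_upwards [h] with q hq _ hq2
            exact hq ((hmem _).mp hq2)
      · exact Filter.Eventually.of_forall (fun q h => absurd h hai)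
    have hall' := (Filter.eventually_all_finset t.powerset).mpr hall
    filter_upwards [hall'] with q hq hmem
    rw [convexHull_eq_union] at hmem
    simp only [mem_iUnion] at hmem
    obtain ⟨u, hu, hai, hmem⟩ := hmem
    exact hq u (Finset.mem_powerset.mpr (by exact_mod_cast hu)) hai hmem
  by_cases hex : ∃ A : (ℝ × ℝ) →ᵃ[ℝ] (ℝ × ℝ), ∀ᶠ q in small, σ (tp x v s q) = A (tp x v s q)
  · exact hex
  refine ⟨AffineMap.id ℝ (ℝ × ℝ), ?_⟩
  have hall : ∀ t ∈ P, ∀ᶠ q in small, tp x v s q ∉ convexHull ℝ (↑t : Set (ℝ × ℝ)) := by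
    intro t ht
    rcases claim t ht with h | h
    · exact absurd h hex
    · exact h
  filter_upwards [(Filter.eventually_all_finset P).mpr hall] with q hq
  rw [h1 _ (by simpa using hq)]
  rfl

/-- Thin sectors with respect to the inverse of a generator of the group. -/
lemma gen_inv_thin (σ : Equiv.Perm (ℝ × ℝ)) (P : Finset (Finset (ℝ × ℝ)))
    (h1 : ∀ x : ℝ × ℝ, x ∉ (⋃ s ∈ P, convexHull ℝ (↑s : Set (ℝ × ℝ))) → σ x = x)
    (h2 : ∀ s ∈ P, ∃ A : (ℝ × ℝ) →ᵃ[ℝ] (ℝ × ℝ),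
        ∀ x ∈ convexHull ℝ (↑s : Set (ℝ × ℝ)), σ x = A x)
    (x v : ℝ × ℝ) (hv : v ≠ 0) (s : ℝ) (hs : s ≠ 0) :
    ∃ A : (ℝ × ℝ) →ᵃ[ℝ] (ℝ × ℝ), ∀ᶠ q in small, σ⁻¹ (tp x v s q) = A (tp x v s q) := by
  have claim : ∀ t ∈ P, (∃ A : (ℝ × ℝ) →ᵃ[ℝ] (ℝ × ℝ), ∀ᶠ q in small,
      σ⁻¹ (tp x v s q) = A (tp x v s q)) ∨
      (∀ᶠ q in small, σ⁻¹ (tp x v s q) ∉ convexHull ℝ (↑t : Set (ℝ × ℝ))) := by
    intro t ht
    obtain ⟨A, hA⟩ := h2 t ht
    by_cases hex : ∃ A : (ℝ × ℝ) →ᵃ[ℝ] (ℝ × ℝ), ∀ᶠ q in small, σ⁻¹ (tp x v s q) = A (tp x v s q)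
    · exact Or.inl hex
    right
    have hall : ∀ u ∈ t.powerset, ∀ᶠ q in small,
        AffineIndependent ℝ ((↑) : u → ℝ × ℝ) →
          σ⁻¹ (tp x v s q) ∉ convexHull ℝ (u : Set (ℝ × ℝ)) := by
      intro u hu
      have hut : (u : Set (ℝ × ℝ)) ⊆ t := by exact_mod_cast Finset.mem_powerset.mp hu
      have hAu : ∀ y ∈ convexHull ℝ (u : Set (ℝ × ℝ)), σ y = A y :=
        fun y hy => hA y (convexHull_mono hut hy)
      by_cases hai : AffineIndependent ℝ ((↑) : u → ℝ × ℝ)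
      · rcases hull_cases u hai with hcard | ⟨a, ha, hmem, hint⟩
        · obtain ⟨a, ha, ha0⟩ := deg_card (u.image A) ((Finset.card_image_le).trans hcard)
          have himg : ∀ y : ℝ × ℝ, σ⁻¹ y ∈ convexHull ℝ (u : Set (ℝ × ℝ)) → a y = 0 := by
            intro y hy
            apply ha0
            have e : A (σ⁻¹ y) = y := by rw [← hAu _ hy]; simp
            have : A (σ⁻¹ y) ∈ A '' (convexHull ℝ (u : Set (ℝ × ℝ))) := ⟨_, hy, rfl⟩
            rw [AffineMap.image_convexHull, e] at this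
            simpa using this
          rcases sign_small a ha x v hv s hs with h | h
          · filter_upwards [h] with q hq _ hq2
            rw [himg _ hq2] at hq; exact lt_irrefl _ hq
          · filter_upwards [h] with q hq _ hq2
            rw [himg _ hq2] at hq; exact lt_irrefl _ hq
        · -- `A` is invertible
          have hinj : Function.Injective A.linear := by
            obtain ⟨c, hc⟩ := hint
            apply inj_linear σ σ.injective c (1, 0) (by simp) 1 one_ne_zero A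
            have hev : ∀ᶠ q in small, tp c (1, 0) 1 q ∈ convexHull ℝ (u : Set (ℝ × ℝ)) :=
              (tendsto_tp c (1, 0) 1).eventually (mem_interior_iff_mem_nhds.mp hc)
            filter_upwards [hev] with q hq
            exact hAu _ hq
          have hbij : Function.Bijective A := by
            have hl : Function.Bijective A.linear :=
              ⟨hinj, LinearMap.surjective_of_injective hinj⟩
            exact (AffineMap.linear_bijective_iff A).mp hl
          let e : (ℝ × ℝ) ≃ᵃ[ℝ] (ℝ × ℝ) := AffineEquiv.ofBijective hbij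
          have heA : ∀ y, e y = A y := fun y => rfl
          have himg : ∀ y : ℝ × ℝ, σ⁻¹ y ∈ convexHull ℝ (u : Set (ℝ × ℝ)) ↔
              ∀ i, 0 ≤ ((a i).comp (e.symm : (ℝ × ℝ) →ᵃ[ℝ] (ℝ × ℝ))) y := by
            intro y
            have e0 : ∀ i, ((a i).comp (e.symm : (ℝ × ℝ) →ᵃ[ℝ] (ℝ × ℝ))) y = a i (e.symm y) :=
              fun i => rfl
            simp only [e0]
            constructor
            · intro hy
              have e1 : σ⁻¹ y = e.symm y := by
                rw [AffineEquiv.eq_symm_apply, heA, ← hAu _ hy]; simp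
              rw [← e1]
              exact (hmem _).mp hy
            · intro hy
              have hy2 := (hmem _).mpr hy
              have e1 : σ⁻¹ y = e.symm y := by
                rw [Equiv.Perm.inv_eq_iff_eq, hAu _ hy2, ← heA, AffineEquiv.apply_symm_apply]
              rw [e1]
              exact hy2
          have ha' : ∀ i, ((a i).comp (e.symm : (ℝ × ℝ) →ᵃ[ℝ] (ℝ × ℝ))).linear ≠ 0 := by
            intro i h0
            apply ha i
            have : (a i).linear = (a i).linear ∘ₗ (e.symm.linear : (ℝ × ℝ) →ₗ[ℝ] (ℝ × ℝ))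
                ∘ₗ (e.linear : (ℝ × ℝ) →ₗ[ℝ] (ℝ × ℝ)) := by
              ext <;> simp
            rw [this, ← LinearMap.comp_assoc]
            have h0' : (a i).linear ∘ₗ (e.symm.linear : (ℝ × ℝ) →ₗ[ℝ] (ℝ × ℝ)) = 0 := h0
            rw [h0', LinearMap.zero_comp]
          rcases thin_poly _ ha' x v hv s hs with h | h
          · exfalso
            apply hex
            refine ⟨(e.symm : (ℝ × ℝ) →ᵃ[ℝ] (ℝ × ℝ)), ?_⟩
            filter_upwards [h] with q hq
            have hy := (himg _).mpr hq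
            rw [Equiv.Perm.inv_eq_iff_eq, ]
            have hy2 : e.symm (tp x v s q) ∈ convexHull ℝ (u : Set (ℝ × ℝ)) :=
              (hmem _).mpr hq
            change _ = σ (e.symm _)
            rw [hAu _ hy2, ← heA, AffineEquiv.apply_symm_apply]
          · filter_upwards [h] with q hq _ hq2
            exact hq ((himg _).mp hq2)
      · exact Filter.Eventually.of_forall (fun q h => absurd h hai)
    have hall' := (Filter.eventually_all_finset t.powerset).mpr hall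
    filter_upwards [hall'] with q hq hmem
    rw [convexHull_eq_union] at hmem
    simp only [mem_iUnion] at hmem
    obtain ⟨u, hu, hai, hmem⟩ := hmem
    exact hq u (Finset.mem_powerset.mpr (by exact_mod_cast hu)) hai hmem
  by_cases hex : ∃ A : (ℝ × ℝ) →ᵃ[ℝ] (ℝ × ℝ), ∀ᶠ q in small, σ⁻¹ (tp x v s q) = A (tp x v s q)
  · exact hex
  refine ⟨AffineMap.id ℝ (ℝ × ℝ), ?_⟩
  have hall : ∀ t ∈ P, ∀ᶠ q in small,
      σ⁻¹ (tp x v s q) ∉ convexHull ℝ (↑t : Set (ℝ × ℝ)) := by
    intro t ht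
    rcases claim t ht with h | h
    · exact absurd h hex
    · exact h
  filter_upwards [(Filter.eventually_all_finset P).mpr hall] with q hq
  have h3 := h1 (σ⁻¹ (tp x v s q)) (by simpa using hq)
  have h4 : σ (σ⁻¹ (tp x v s q)) = tp x v s q := by simp
  rw [h4] at h3
  exact h3.symm

end Pool.Agent.Helper908Ray
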