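import Pool.Agent.helper908_ray.Sum

set_option autoImplicit false

open Filter Topology Set

namespace Pool.Agent.Helper908Ray

variable {n : ℕ}

/-- Contribution of the ray in direction `v` at `x`. -/
noncomputable def KK (Ψ : ℝ × ℝ → (Fin n → (ℝ × ℝ) →ₗ[ℝ] (ℝ × ℝ)) →
      (Fin n → (ℝ × ℝ) →ₗ[ℝ] (ℝ × ℝ)) → ℝ)
    (F : Fin n → ℝ × ℝ → ℝ × ℝ) (x : ℝ × ℝ) (v : Dir) : ℝ :=
  Ψ v.1 (fun i => sidePart (F i) x v.1 1) (fun i => sidePart (F i) x v.1 (-1))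

lemma loc_all (F : Fin n → ℝ × ℝ → ℝ × ℝ) (hF : ∀ i, Nice (F i)) (x v : ℝ × ℝ) (hv : v ≠ 0) :
    ∃ δ : ℝ, 0 < δ ∧ ∀ i, Loc (F i) x v δ := by
  choose δ hδ h using fun i => (hF i).loc x v hv
  have hev : ∀ᶠ d in 𝓝[>] (0 : ℝ), 0 < d ∧ ∀ i, d ≤ δ i := by
    have h1 : ∀ᶠ d in 𝓝[>] (0 : ℝ), 0 < d := eventually_mem_nhdsWithin
    have h2 : ∀ᶠ d in 𝓝[>] (0 : ℝ), ∀ i, d ≤ δ i := by
      rw [eventually_all]
      intro i
      filter_upwards [Ioo_mem_nhdsGT (hδ i)] with d hd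
      exact hd.2.le
    exact h1.and h2
  obtain ⟨d, hd, hd2⟩ := hev.exists
  exact ⟨d, hd, fun i => (h i).mono (hd2 i)⟩

lemma be_ne (v w : Dir) (h1 : w ≠ v) (h2 : w ≠ v.op) : be v.1 w.1 ≠ 0 := by
  intro hb
  rcases lt_trichotomy (al v.1 w.1) 0 with h | h | h
  · apply h2
    have e1 : al v.op.1 w.1 = - al v.1 w.1 := by
      simp only [al, Dir.op, Prod.fst_neg, Prod.snd_neg]; ring_nf
    have e2 : be v.op.1 w.1 = 0 := by
      have : be v.op.1 w.1 = - be v.1 w.1 := by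
        simp only [be, Dir.op, Prod.fst_neg, Prod.snd_neg]; ring_nf
      rw [this, hb, neg_zero]
    exact eq_of_be v.op w (by rw [e1]; linarith) e2
  · have := decomp v.1 v.ne w.1
    rw [h, hb, zero_smul, zero_smul, add_zero] at this
    exact w.ne this
  · exact h1 (eq_of_be v w h hb)

theorem sys_of_nice (Ψ : ℝ × ℝ → (Fin n → (ℝ × ℝ) →ₗ[ℝ] (ℝ × ℝ)) →
      (Fin n → (ℝ × ℝ) →ₗ[ℝ] (ℝ × ℝ)) → ℝ) (hΨ : ∀ v a, Ψ v a a = 0)
    (F : Fin n → ℝ × ℝ → ℝ × ℝ) (hF : ∀ i, Nice (F i)) :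
    Sys (KK Ψ F) (fun x v => Ψ (-v.1) (fun i => sidePart (F i) x v.1 (-1))
      (fun i => sidePart (F i) x v.1 1)) where
  ray := by
    intro x v
    obtain ⟨δ, hδ, h⟩ := loc_all F hF x v.1 v.ne
    refine ⟨δ, hδ, fun t h1 h2 => ⟨?_, ?_, ?_⟩⟩
    · unfold KK
      have e1 : ∀ i, sidePart (F i) (x + t • v.1) v.1 1 = sidePart (F i) x v.1 1 :=
        fun i => (((h i).1 t h1 h2).1 1 (by norm_num)).1
      have e2 : ∀ i, sidePart (F i) (x + t • v.1) v.1 (-1) = sidePart (F i) x v.1 (-1) :=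
        fun i => (((h i).1 t h1 h2).1 (-1) (by norm_num)).1
      simp only [e1, e2]
    · unfold KK Dir.op
      have e1 : ∀ i, sidePart (F i) (x + t • v.1) (-v.1) 1 = sidePart (F i) x v.1 (-1) := by
        intro i
        have := (((h i).1 t h1 h2).1 (-1) (by norm_num)).2
        rwa [neg_neg] at this
      have e2 : ∀ i, sidePart (F i) (x + t • v.1) (-v.1) (-1) = sidePart (F i) x v.1 1 :=
        fun i => (((h i).1 t h1 h2).1 1 (by norm_num)).2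
      simp only [e1, e2]
    · intro w hw1 hw2
      unfold KK
      have e1 : ∀ i, sidePart (F i) (x + t • v.1) w.1 1 =
          sidePart (F i) (x + t • v.1) w.1 (-1) :=
        fun i => ((h i).1 t h1 h2).2 w.1 (be_ne v w hw1 hw2)
      simp only [e1, hΨ]
  off := by
    intro x v
    obtain ⟨δ, hδ, h⟩ := loc_all F hF x v.1 v.ne
    refine ⟨δ, hδ, ?_, ?_⟩
    · intro y w h1 h2 h3 h4
      unfold KK
      have e1 : ∀ i, sidePart (F i) y w.1 1 = sidePart (F i) y w.1 (-1) :=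
        fun i => (h i).2.1 y w.1 w.ne h1 h2 h3 h4
      simp only [e1, hΨ]
    · intro w h1 h2 h3
      unfold KK
      have e1 : ∀ i, sidePart (F i) x w.1 1 = sidePart (F i) x w.1 (-1) :=
        fun i => (h i).2.2 w.1 h1 h2 h3
      simp only [e1, hΨ]
  far := by
    choose R hR using fun i => (hF i).far
    refine ⟨∑ i, |R i|, fun x hx w => ?_⟩
    unfold KK
    have e1 : ∀ i, sidePart (F i) x w.1 1 = sidePart (F i) x w.1 (-1) := by
      intro i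
      apply hR i x _ w.1 w.ne
      have h1 : |R i| ≤ ∑ i, |R i| := Finset.single_le_sum (f := fun i => |R i|)
        (fun i _ => abs_nonneg _) (Finset.mem_univ i)
      exact lt_of_le_of_lt ((le_abs_self _).trans h1) hx
    simp only [e1, hΨ]

theorem main (Ψ : ℝ × ℝ → (Fin n → (ℝ × ℝ) →ₗ[ℝ] (ℝ × ℝ)) →
      (Fin n → (ℝ × ℝ) →ₗ[ℝ] (ℝ × ℝ)) → ℝ) (hΨ : ∀ v a, Ψ v a a = 0)
    (F : Fin n → Equiv.Perm (ℝ × ℝ)) (hF : ∀ i, F i ∈ PLc)
    (hfin : (Function.support fun x => ∑ᶠ v : Dir,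
      Ψ v.1 (fun i => sidePart (F i) x v.1 1) (fun i => sidePart (F i) x v.1 (-1))).Finite) :
    ∑ᶠ x, ∑ᶠ v : Dir,
      Ψ v.1 (fun i => sidePart (F i) x v.1 1) (fun i => sidePart (F i) x v.1 (-1)) = 0 :=
  total (sys_of_nice Ψ hΨ (fun i => F i) (fun i => nice_of_mem (hF i))) hfin

end Pool.Agent.Helper908Ray
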