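import Pool.Agent.helper908_ray.Gen

set_option autoImplicit false

open Filter Topology Set

namespace Pool.Agent.Helper908Ray

/-- The properties of elements of the group used below. -/
structure Nice (f : ℝ × ℝ → ℝ × ℝ) : Prop where
  cont : Continuous f
  inj : Function.Injective f
  thin : ∀ (x v : ℝ × ℝ) (s : ℝ), v ≠ 0 → s ≠ 0 → ∃ A : (ℝ × ℝ) →ᵃ[ℝ] (ℝ × ℝ),
    ∀ᶠ q in small, f (tp x v s q) = A (tp x v s q)
  supp : ∃ R : ℝ, ∀ x, R < ‖x‖ → f x = x

lemma Nice.at_pt {f : ℝ × ℝ → ℝ × ℝ} (hf : Nice f) {x v : ℝ × ℝ} {s : ℝ}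
    {A : (ℝ × ℝ) →ᵃ[ℝ] (ℝ × ℝ)} (h : ∀ᶠ q in small, f (tp x v s q) = A (tp x v s q)) :
    f x = A x := by
  have h1 : Tendsto (fun q => f (tp x v s q)) small (𝓝 (f x)) :=
    (hf.cont.tendsto x).comp (tendsto_tp x v s)
  have h2 : Tendsto (fun q => A (tp x v s q)) small (𝓝 (A x)) :=
    (A.continuous_of_finiteDimensional.tendsto x).comp (tendsto_tp x v s)
  exact tendsto_nhds_unique (h1.congr' h) h2

lemma J_ne (v : ℝ × ℝ) (hv : v ≠ 0) : J v ≠ 0 := by
  intro h
  apply hv
  have h1 := congrArg Prod.fst h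
  have h2 := congrArg Prod.snd h
  simp [J] at h1 h2
  exact Prod.ext h2 h1

lemma Nice.comp {g f : ℝ × ℝ → ℝ × ℝ} (hg : Nice g) (hf : Nice f) : Nice (g ∘ f) where
  cont := hg.cont.comp hf.cont
  inj := hg.inj.comp hf.inj
  thin := by
    intro x v s hv hs
    obtain ⟨A, hA⟩ := hf.thin x v s hv hs
    have hinj := inj_linear f hf.inj x v hv s hs A hA
    have hx := hf.at_pt hA
    set w := A.linear v with hw
    have hw0 : w ≠ 0 := fun h0 => hv (hinj (by rw [map_zero]; exact h0))
    obtain ⟨p, r, hpr⟩ : ∃ p r : ℝ, A.linear (J v) = p • w + r • J w :=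
      ⟨_, _, span_J w hw0 (A.linear (J v))⟩
    have hr : r ≠ 0 := by
      intro h0
      rw [h0, zero_smul, add_zero, hw, ← map_smul] at hpr
      have h1 := hinj hpr
      -- J v = p • v
      have h2 : v.1 ^ 2 + v.2 ^ 2 = 0 := by
        have e1 := congrArg Prod.fst h1
        have e2 := congrArg Prod.snd h1
        simp [J] at e1 e2
        linear_combination v.1 * e2 - v.2 * e1
      apply hv
      have h3 : v.1 = 0 := by nlinarith [sq_nonneg v.1, sq_nonneg v.2]
      have h4 : v.2 = 0 := by nlinarith [sq_nonneg v.1, sq_nonneg v.2]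
      exact Prod.ext h3 h4
    obtain ⟨B, hB⟩ := hg.thin (f x) w (s * r) hw0 (mul_ne_zero hs hr)
    refine ⟨B.comp A, ?_⟩
    let φ : ℝ × ℝ → ℝ × ℝ := fun q => (q.1 * (1 + s * q.2 * p), q.2 / (1 + s * q.2 * p))
    have hden : Tendsto (fun q : ℝ × ℝ => 1 + s * q.2 * p) small (𝓝 1) := by
      have hc : Continuous (fun q : ℝ × ℝ => 1 + s * q.2 * p) := by fun_prop
      have := hc.tendsto ((0 : ℝ), (0 : ℝ))
      simp only [mul_zero, zero_mul, add_zero] at this
      exact this.mono_left small_le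
    have hdpos : ∀ᶠ q in small, 0 < 1 + s * q.2 * p := hden.eventually (lt_mem_nhds one_pos)
    have hφ : Tendsto φ small small := by
      have a1 : Tendsto (fun q : ℝ × ℝ => q.1 * (1 + s * q.2 * p)) small (𝓝[>] 0) := by
        rw [tendsto_nhdsWithin_iff]
        constructor
        · have h0 : Tendsto (fun q : ℝ × ℝ => q.1) small (𝓝 0) :=
            (continuous_fst.tendsto ((0 : ℝ), (0 : ℝ))).mono_left small_le
          simpa using h0.mul hden
        · filter_upwards [small_pos, hdpos] with q h1 h2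
          exact mul_pos h1.1 h2
      have a2 : Tendsto (fun q : ℝ × ℝ => q.2 / (1 + s * q.2 * p)) small (𝓝[>] 0) := by
        rw [tendsto_nhdsWithin_iff]
        constructor
        · have h0 : Tendsto (fun q : ℝ × ℝ => q.2) small (𝓝 0) :=
            (continuous_snd.tendsto ((0 : ℝ), (0 : ℝ))).mono_left small_le
          have h1 := h0.div hden one_ne_zero
          rw [zero_div] at h1
          exact h1
        · filter_upwards [small_pos, hdpos] with q h1 h2
          exact div_pos h1.2 h2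
      exact a1.prodMk a2
    filter_upwards [hA, hφ.eventually hB, hdpos] with q h1 h2 h3
    have e : tp (f x) w (s * r) (φ q) = A (tp x v s q) := by
      have e1 : A (tp x v s q) = A ((q.1 • (v + (s * q.2) • J v)) +ᵥ x) := by
        simp [tp, add_comm]
      rw [e1, AffineMap.map_vadd, map_smul, map_add, map_smul, hpr, ← hw, hx]
      simp only [tp, φ, vadd_eq_add]
      have h3' : 1 + s * q.2 * p ≠ 0 := h3.ne'
      have e2 : q.1 * (1 + s * q.2 * p) * (s * r * (q.2 / (1 + s * q.2 * p))) =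
          q.1 * (s * q.2 * r) := by
        field_simp
      have e3 : (q.1 * (1 + s * q.2 * p)) • (w + (s * r * (q.2 / (1 + s * q.2 * p))) • J w) =
          (q.1 * (1 + s * q.2 * p)) • w + (q.1 * (s * q.2 * r)) • J w := by
        rw [smul_add, smul_smul, e2]
      rw [e3]
      module
    rw [Function.comp_apply, h1, ← e, h2, e]
    rfl
  supp := by
    obtain ⟨R, hR⟩ := hf.supp
    obtain ⟨R', hR'⟩ := hg.supp
    refine ⟨max R R', fun x hx => ?_⟩
    have h1 := hR x (lt_of_le_of_lt (le_max_left _ _) hx)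
    have h2 := hR' x (lt_of_le_of_lt (le_max_right _ _) hx)
    rw [Function.comp_apply, h1, h2]

lemma nice_of_mem {f : Equiv.Perm (ℝ × ℝ)} (hf : f ∈ PLc) : Nice f := by
  unfold PLc at hf
  induction hf using Subgroup.closure_induction'' with
  | one =>
    exact ⟨continuous_id, Function.injective_id, fun x v s _ _ =>
      ⟨AffineMap.id ℝ _, Eventually.of_forall fun q => rfl⟩, ⟨0, fun x _ => rfl⟩⟩
  | mem σ hσ =>
    obtain ⟨hc, _, P, h1, h2⟩ := hσ
    refine ⟨hc, σ.injective, fun x v s hv hs => gen_thin σ P h1 h2 x v hv s hs, ?_⟩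
    have hb : Bornology.IsBounded (⋃ s ∈ P, convexHull ℝ (↑s : Set (ℝ × ℝ))) := by
      rw [Bornology.isBounded_biUnion_finset]
      intro s _
      exact (s.finite_toSet.isCompact_convexHull (𝕜 := ℝ)).isBounded
    obtain ⟨R, hR⟩ := hb.exists_norm_le
    exact ⟨R, fun x hx => h1 x (fun hmem => absurd (hR x hmem) (not_le.mpr hx))⟩
  | inv_mem σ hσ =>
    obtain ⟨_, hc, P, h1, h2⟩ := hσ
    refine ⟨hc, (σ⁻¹).injective, fun x v s hv hs => gen_inv_thin σ P h1 h2 x v hv s hs, ?_⟩
    have hb : Bornology.IsBounded (⋃ s ∈ P, convexHull ℝ (↑s : Set (ℝ × ℝ))) := by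
      rw [Bornology.isBounded_biUnion_finset]
      intro s _
      exact (s.finite_toSet.isCompact_convexHull (𝕜 := ℝ)).isBounded
    obtain ⟨R, hR⟩ := hb.exists_norm_le
    refine ⟨R, fun x hx => ?_⟩
    have := h1 x (fun hmem => absurd (hR x hmem) (not_le.mpr hx))
    rw [Equiv.Perm.inv_eq_iff_eq, this]
  | mul f g _ _ hf hg =>
    exact hf.comp hg

end Pool.Agent.Helper908Ray
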