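import Pool.Agent.helper908_ray.Nice

set_option autoImplicit false

open Filter Topology Set

namespace Pool.Agent.Helper908Ray

/-- The linear part of `f` at `x` on the side `s` of the ray in direction `v`, and `0` if there
is none. -/
noncomputable def sidePart (f : ℝ × ℝ → ℝ × ℝ) (x v : ℝ × ℝ) (s : ℝ) :
    (ℝ × ℝ) →ₗ[ℝ] (ℝ × ℝ) := by
  classical
  exact if h : ∃ A, IsSidePart f x v s A then h.choose else 0

lemma side_unique {f : ℝ × ℝ → ℝ × ℝ} {x v : ℝ × ℝ} {s : ℝ} (hv : v ≠ 0) (hs : s ≠ 0)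
    {A B : (ℝ × ℝ) →ₗ[ℝ] (ℝ × ℝ)} (hA : IsSidePart f x v s A) (hB : IsSidePart f x v s B) :
    A = B := by
  rw [isSidePart_iff] at hA hB
  have h : ∀ᶠ q in small, (A - B) (tp x v s q - x) = 0 := by
    filter_upwards [hA, hB] with q h1 h2
    rw [h1] at h2
    rw [LinearMap.sub_apply, sub_eq_zero]
    exact add_left_cancel h2
  obtain ⟨δ, hδ, h⟩ := (small_iff _).mp h
  have e1 := h (δ / 2) (δ / 2) (by positivity) (by linarith) (by positivity) (by linarith)
  have e2 := h (δ / 2) (δ / 4) (by positivity) (by linarith) (by positivity) (by linarith)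
  simp only [tp, add_sub_cancel_left, map_smul, map_add, smul_eq_zero] at e1 e2
  have hδ2 : δ / 2 ≠ 0 := by positivity
  replace e1 := e1.resolve_left hδ2
  replace e2 := e2.resolve_left hδ2
  have e3 : (s * (δ / 4)) • (A - B) (J v) = 0 := by
    have : (s * (δ / 4)) • (A - B) (J v) = ((A - B) v + (s * (δ / 2)) • (A - B) (J v)) -
        ((A - B) v + (s * (δ / 4)) • (A - B) (J v)) := by module
    rw [this, e1, e2, sub_zero]
  have h4 : s * (δ / 4) ≠ 0 := mul_ne_zero hs (by positivity)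
  have e4 : (A - B) (J v) = 0 := (smul_eq_zero.mp e3).resolve_left h4
  have e5 : (A - B) v = 0 := by rw [e4, smul_zero, add_zero] at e1; exact e1
  exact sub_eq_zero.mp (linear_eq_zero (A - B) v hv e5 e4)

lemma sidePart_eq {f : ℝ × ℝ → ℝ × ℝ} {x v : ℝ × ℝ} {s : ℝ} (hv : v ≠ 0) (hs : s ≠ 0)
    {A : (ℝ × ℝ) →ₗ[ℝ] (ℝ × ℝ)} (hA : IsSidePart f x v s A) : sidePart f x v s = A := by
  have h : ∃ A, IsSidePart f x v s A := ⟨A, hA⟩
  have e : sidePart f x v s = h.choose := by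
    unfold sidePart
    rw [dif_pos h]
  rw [e]
  exact side_unique hv hs h.choose_spec hA

lemma Nice.side {f : ℝ × ℝ → ℝ × ℝ} (hf : Nice f) {x v : ℝ × ℝ} {s : ℝ} (hv : v ≠ 0)
    (hs : s ≠ 0) {A : (ℝ × ℝ) →ᵃ[ℝ] (ℝ × ℝ)}
    (h : ∀ᶠ q in small, f (tp x v s q) = A (tp x v s q)) : sidePart f x v s = A.linear := by
  apply sidePart_eq hv hs
  rw [isSidePart_iff]
  have hx := hf.at_pt h
  filter_upwards [h] with q hq
  rw [hq, hx]
  have : A (tp x v s q) = A ((tp x v s q - x) +ᵥ x) := by simp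
  rw [this, AffineMap.map_vadd, vadd_eq_add, add_comm]

/-- Coordinates with respect to `v`, `J v`. -/
noncomputable def al (v z : ℝ × ℝ) : ℝ := (z.1 * v.1 + z.2 * v.2) / (v.1 ^ 2 + v.2 ^ 2)

noncomputable def be (v z : ℝ × ℝ) : ℝ := (z.2 * v.1 - z.1 * v.2) / (v.1 ^ 2 + v.2 ^ 2)

lemma nsq_ne (v : ℝ × ℝ) (hv : v ≠ 0) : v.1 ^ 2 + v.2 ^ 2 ≠ 0 := by
  intro h
  apply hv
  have h1 : v.1 = 0 := by nlinarith [sq_nonneg v.1, sq_nonneg v.2]
  have h2 : v.2 = 0 := by nlinarith [sq_nonneg v.1, sq_nonneg v.2]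
  exact Prod.ext h1 h2

lemma decomp (v : ℝ × ℝ) (hv : v ≠ 0) (z : ℝ × ℝ) : z = al v z • v + be v z • J v :=
  span_J v hv z

lemma al_comb (v : ℝ × ℝ) (hv : v ≠ 0) (a b : ℝ) : al v (a • v + b • J v) = a := by
  have h := nsq_ne v hv
  unfold al J
  simp
  field_simp
  ring

lemma be_comb (v : ℝ × ℝ) (hv : v ≠ 0) (a b : ℝ) : be v (a • v + b • J v) = b := by
  have h := nsq_ne v hv
  unfold be J
  simp
  field_simp
  ring

lemma al_add (v y z : ℝ × ℝ) : al v (y + z) = al v y + al v z := by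
  unfold al; simp; ring

lemma be_add (v y z : ℝ × ℝ) : be v (y + z) = be v y + be v z := by
  unfold be; simp; ring

lemma al_smul (v z : ℝ × ℝ) (c : ℝ) : al v (c • z) = c * al v z := by
  unfold al; simp; ring

lemma be_smul (v z : ℝ × ℝ) (c : ℝ) : be v (c • z) = c * be v z := by
  unfold be; simp; ring

lemma cont_al (v : ℝ × ℝ) : Continuous (al v) := by
  unfold al; fun_prop

lemma cont_be (v : ℝ × ℝ) : Continuous (be v) := by
  unfold be; fun_prop

/-- The half open sector at `x` on the side `s` of the ray in direction `v`. -/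
def Sig (x v : ℝ × ℝ) (s δ : ℝ) : Set (ℝ × ℝ) :=
  {p | 0 < al v (p - x) ∧ al v (p - x) < δ ∧ 0 ≤ s * be v (p - x) ∧
    s * be v (p - x) < δ * al v (p - x)}

/-- `f` is affine on the half open sector. -/
lemma Nice.sig {f : ℝ × ℝ → ℝ × ℝ} (hf : Nice f) {x v : ℝ × ℝ} {s : ℝ} (hv : v ≠ 0)
    (hs : s * s = 1) {A : (ℝ × ℝ) →ᵃ[ℝ] (ℝ × ℝ)}
    (h : ∀ᶠ q in small, f (tp x v s q) = A (tp x v s q)) :
    ∃ δ : ℝ, 0 < δ ∧ ∀ p ∈ Sig x v s δ, f p = A p := by
  obtain ⟨δ, hδ, h⟩ := (small_iff _).mp h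
  refine ⟨δ, hδ, ?_⟩
  rintro p ⟨h1, h2, h3, h4⟩
  set a := al v (p - x) with ha
  set b := be v (p - x) with hb
  have hp : p = x + (a • v + b • J v) := by
    rw [ha, hb, ← decomp v hv (p - x)]; simp
  rcases h3.lt_or_eq with h5 | h5
  · have hε : 0 < s * b / a := div_pos h5 h1
    have hε2 : s * b / a < δ := by rw [div_lt_iff₀ h1]; exact h4
    have := h a (s * b / a) h1 h2 hε hε2
    have e : tp x v s (a, s * b / a) = p := by
      rw [hp]
      simp only [tp]
      have e1 : a * (s * (s * b / a)) = b := by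
        have : a * (s * (s * b / a)) = (s * s) * b := by field_simp
        rw [this, hs, one_mul]
      rw [smul_add, smul_smul, e1]
    rw [← e]
    exact this
  · -- on the ray
    have hb0 : b = 0 := by
      have : s * (s * b) = 0 := by rw [← h5, mul_zero]
      rw [← mul_assoc, hs, one_mul] at this
      exact this
    have hlim : Tendsto (fun ε : ℝ => x + a • (v + (s * ε) • J v)) (𝓝[>] 0) (𝓝 p) := by
      have hc : Continuous (fun ε : ℝ => x + a • (v + (s * ε) • J v)) := by fun_prop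
      have h6 := hc.tendsto 0
      have e : x + a • (v + (s * 0) • J v) = p := by
        rw [hp, hb0]; simp
      rw [e] at h6
      exact h6.mono_left nhdsWithin_le_nhds
    have t1 : Tendsto (fun ε : ℝ => f (x + a • (v + (s * ε) • J v))) (𝓝[>] 0) (𝓝 (f p)) :=
      (hf.cont.tendsto p).comp hlim
    have t2 : Tendsto (fun ε : ℝ => A (x + a • (v + (s * ε) • J v))) (𝓝[>] 0) (𝓝 (A p)) :=
      (A.continuous_of_finiteDimensional.tendsto p).comp hlim
    have hev : ∀ᶠ ε in 𝓝[>] (0 : ℝ), f (x + a • (v + (s * ε) • J v)) =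
        A (x + a • (v + (s * ε) • J v)) := by
      filter_upwards [Ioo_mem_nhdsGT hδ] with ε hε
      exact h a ε h1 h2 hε.1 hε.2
    exact tendsto_nhds_unique (t1.congr' hev) t2

/-- Side parts computed in the sector. -/
lemma Nice.side_of_sig {f : ℝ × ℝ → ℝ × ℝ} (hf : Nice f) {x v : ℝ × ℝ} {s δ : ℝ}
    {A : (ℝ × ℝ) →ᵃ[ℝ] (ℝ × ℝ)} (h : ∀ p ∈ Sig x v s δ, f p = A p) {y w : ℝ × ℝ} {r : ℝ}
    (hw : w ≠ 0) (hr : r ≠ 0) (hev : ∀ᶠ q in small, tp y w r q ∈ Sig x v s δ) :
    sidePart f y w r = A.linear :=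
  hf.side hw hr (hev.mono fun q hq => h _ hq)

lemma tp_sub (x y w : ℝ × ℝ) (r : ℝ) (q : ℝ × ℝ) :
    tp y w r q - x = (y - x) + q.1 • (w + (r * q.2) • J w) := by
  unfold tp; module

lemma tendsto_al_tp (x v y w : ℝ × ℝ) (r : ℝ) :
    Tendsto (fun q => al v (tp y w r q - x)) small (𝓝 (al v (y - x))) :=
  ((cont_al v).tendsto (y - x)).comp ((tendsto_tp y w r).sub_const x)

lemma tendsto_be_tp (x v y w : ℝ × ℝ) (r : ℝ) :
    Tendsto (fun q => be v (tp y w r q - x)) small (𝓝 (be v (y - x))) :=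
  ((cont_be v).tendsto (y - x)).comp ((tendsto_tp y w r).sub_const x)

/-- Interior points of the sector. -/
lemma ev_open (x v : ℝ × ℝ) (s δ : ℝ) (y w : ℝ × ℝ) (r : ℝ)
    (h1 : 0 < al v (y - x)) (h2 : al v (y - x) < δ) (h3 : 0 < s * be v (y - x))
    (h4 : s * be v (y - x) < δ * al v (y - x)) :
    ∀ᶠ q in small, tp y w r q ∈ Sig x v s δ := by
  have ta := tendsto_al_tp x v y w r
  have tb := (tendsto_be_tp x v y w r).const_mul s
  filter_upwards [ta.eventually (lt_mem_nhds h1), ta.eventually (gt_mem_nhds h2),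
    tb.eventually (lt_mem_nhds h3), tb.eventually_lt (ta.const_mul δ) h4] with q a1 a2 a3 a4
  exact ⟨a1, a2, a3.le, a4⟩

/-- Points on the ray. -/
lemma ev_ray (x v : ℝ × ℝ) (hv : v ≠ 0) (s δ t : ℝ) (ht : 0 < t) (ht2 : t < δ)
    (w : ℝ × ℝ) (r : ℝ) (hpos : ∀ᶠ q in small, 0 ≤ s * be v (w + (r * q.2) • J w)) :
    ∀ᶠ q in small, tp (x + t • v) w r q ∈ Sig x v s δ := by
  have hδ : 0 < δ := ht.trans ht2
  have e0 : x + t • v - x = t • v + (0 : ℝ) • J v := by simp
  have ea : al v (x + t • v - x) = t := by rw [e0, al_comb v hv]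
  have eb : be v (x + t • v - x) = 0 := by rw [e0, be_comb v hv]
  have ta := tendsto_al_tp x v (x + t • v) w r
  have tb := (tendsto_be_tp x v (x + t • v) w r).const_mul s
  rw [ea] at ta
  rw [eb, mul_zero] at tb
  have h4 : (0 : ℝ) < δ * t := mul_pos hδ ht
  filter_upwards [ta.eventually (lt_mem_nhds ht), ta.eventually (gt_mem_nhds ht2),
    hpos, small_pos, tb.eventually_lt (ta.const_mul δ) h4] with q a1 a2 a3 a4 a5
  refine ⟨a1, a2, ?_, a5⟩
  rw [tp_sub, be_add, eb, zero_add, be_smul]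
  have : s * (q.1 * be v (w + (r * q.2) • J w)) = q.1 * (s * be v (w + (r * q.2) • J w)) := by
    ring
  rw [this]
  exact mul_nonneg a4.1.le a3

/-- Rays at the apex. -/
lemma ev_apex (x v : ℝ × ℝ) (hv : v ≠ 0) (s δ : ℝ) (hs : s * s = 1) (hδ : 0 < δ)
    (w : ℝ × ℝ) (r : ℝ) (h1 : 0 < al v w) (h2 : 0 < s * be v w) (h3 : s * be v w < δ * al v w) :
    ∀ᶠ q in small, tp x w r q ∈ Sig x v s δ := by
  have tw : Tendsto (fun q : ℝ × ℝ => w + (r * q.2) • J w) small (𝓝 w) := by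
    have hc : Continuous (fun q : ℝ × ℝ => w + (r * q.2) • J w) := by fun_prop
    have := hc.tendsto ((0 : ℝ), (0 : ℝ))
    simp only [mul_zero, zero_smul, add_zero] at this
    exact this.mono_left small_le
  have ta := ((cont_al v).tendsto w).comp tw
  have tb := (((cont_be v).tendsto w).comp tw).const_mul s
  have t0 : Tendsto (fun q => al v (tp x w r q - x)) small (𝓝 0) := by
    have := tendsto_al_tp x v x w r
    rw [sub_self] at this
    have e : al v 0 = 0 := by unfold al; simp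
    rwa [e] at this
  filter_upwards [ta.eventually (lt_mem_nhds h1), tb.eventually (lt_mem_nhds h2),
    tb.eventually_lt (ta.const_mul δ) h3, small_pos, t0.eventually (gt_mem_nhds hδ)]
    with q a1 a2 a3 a4 a5
  simp only [Function.comp_apply] at a1 a2 a3
  refine ⟨?_, a5, ?_, ?_⟩
  · rw [tp_sub, sub_self, zero_add, al_smul]
    exact mul_pos a4.1 a1
  · rw [tp_sub, sub_self, zero_add, be_smul]
    have : s * (q.1 * be v (w + (r * q.2) • J w)) =
      q.1 * (s * be v (w + (r * q.2) • J w)) := by ring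
    rw [this]
    exact (mul_pos a4.1 a2).le
  · rw [tp_sub, sub_self, zero_add, be_smul, al_smul]
    have e1 : s * (q.1 * be v (w + (r * q.2) • J w)) =
      q.1 * (s * be v (w + (r * q.2) • J w)) := by ring
    have e2 : δ * (q.1 * al v (w + (r * q.2) • J w)) =
      q.1 * (δ * al v (w + (r * q.2) • J w)) := by ring
    rw [e1, e2]
    exact mul_lt_mul_of_pos_left a3 a4.1

/-- The local structure of a nice map along a ray. -/
def Loc (f : ℝ × ℝ → ℝ × ℝ) (x v : ℝ × ℝ) (δ : ℝ) : Prop :=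
  (∀ t, 0 < t → t < δ →
    (∀ s : ℝ, s * s = 1 → sidePart f (x + t • v) v s = sidePart f x v s ∧
      sidePart f (x + t • v) (-v) (-s) = sidePart f x v s) ∧
    ∀ w, be v w ≠ 0 → sidePart f (x + t • v) w 1 = sidePart f (x + t • v) w (-1)) ∧
  (∀ y w : ℝ × ℝ, w ≠ 0 → 0 < al v (y - x) → al v (y - x) < δ → 0 < |be v (y - x)| →
    |be v (y - x)| < δ * al v (y - x) → sidePart f y w 1 = sidePart f y w (-1)) ∧
  (∀ w : ℝ × ℝ, 0 < al v w → 0 < |be v w| → |be v w| < δ * al v w →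
    sidePart f x w 1 = sidePart f x w (-1))

lemma Loc.mono {f : ℝ × ℝ → ℝ × ℝ} {x v : ℝ × ℝ} {δ δ' : ℝ} (h : Loc f x v δ) (hle : δ' ≤ δ) :
    Loc f x v δ' := by
  obtain ⟨h1, h2, h3⟩ := h
  refine ⟨fun t a b => h1 t a (lt_of_lt_of_le b hle), fun y w a b c d e => ?_,
    fun w a b c => ?_⟩
  · exact h2 y w a b (lt_of_lt_of_le c hle) d
      (lt_of_lt_of_le e (mul_le_mul_of_nonneg_right hle b.le))
  · exact h3 w a b (lt_of_lt_of_le c (mul_le_mul_of_nonneg_right hle a.le))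

lemma Nice.loc {f : ℝ × ℝ → ℝ × ℝ} (hf : Nice f) (x v : ℝ × ℝ) (hv : v ≠ 0) :
    ∃ δ : ℝ, 0 < δ ∧ Loc f x v δ := by
  have side1 : ∀ s : ℝ, s * s = 1 → ∃ δ : ℝ, 0 < δ ∧ ∃ A : (ℝ × ℝ) →ᵃ[ℝ] (ℝ × ℝ),
      (∀ p ∈ Sig x v s δ, f p = A p) ∧ sidePart f x v s = A.linear := by
    intro s hs
    have hs0 : s ≠ 0 := by rintro rfl; simp at hs
    obtain ⟨A, hA⟩ := hf.thin x v s hv hs0
    obtain ⟨δ, hδ, h⟩ := hf.sig hv hs hA
    exact ⟨δ, hδ, A, h, hf.side hv hs0 hA⟩
  obtain ⟨δ₁, hδ₁, A₁, hA₁, hs₁⟩ := side1 1 (by norm_num)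
  obtain ⟨δ₂, hδ₂, A₂, hA₂, hs₂⟩ := side1 (-1) (by norm_num)
  have hsm : ∀ s δ δ' : ℝ, δ' ≤ δ → Sig x v s δ' ⊆ Sig x v s δ := by
    rintro s δ δ' hle p ⟨a, b, c, d⟩
    exact ⟨a, lt_of_lt_of_le b hle, c, lt_of_lt_of_le d (mul_le_mul_of_nonneg_right hle a.le)⟩
  set δ := min δ₁ δ₂ with hδdef
  have hδ : 0 < δ := lt_min hδ₁ hδ₂
  have hsides : ∀ s : ℝ, s * s = 1 → ∃ A : (ℝ × ℝ) →ᵃ[ℝ] (ℝ × ℝ),
      (∀ p ∈ Sig x v s δ, f p = A p) ∧ sidePart f x v s = A.linear := by
    intro s hs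
    have : s = 1 ∨ s = -1 := mul_self_eq_one_iff.mp hs
    rcases this with rfl | rfl
    · exact ⟨A₁, fun p hp => hA₁ p (hsm 1 δ₁ δ (min_le_left _ _) hp), hs₁⟩
    · exact ⟨A₂, fun p hp => hA₂ p (hsm (-1) δ₂ δ (min_le_right _ _) hp), hs₂⟩
  refine ⟨δ, hδ, ?_, ?_, ?_⟩
  · intro t ht ht2
    refine ⟨?_, ?_⟩
    · intro s hs
      have hs0 : s ≠ 0 := by rintro rfl; simp at hs
      obtain ⟨A, hA, hAl⟩ := hsides s hs
      rw [hAl]
      constructor
      · apply hf.side_of_sig hA hv hs0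
        apply ev_ray x v hv s δ t ht ht2
        filter_upwards [small_pos] with q hq
        have : be v (v + (s * q.2) • J v) = s * q.2 := by
          have := be_comb v hv 1 (s * q.2)
          rwa [one_smul] at this
        rw [this, ← mul_assoc, hs, one_mul]
        exact hq.2.le
      · apply hf.side_of_sig hA (neg_ne_zero.mpr hv) (neg_ne_zero.mpr hs0)
        apply ev_ray x v hv s δ t ht ht2
        filter_upwards [small_pos] with q hq
        have e : -v + (-s * q.2) • J (-v) = (-1 : ℝ) • v + (s * q.2) • J v := by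
          ext <;> simp [J]
        rw [e, be_comb v hv, ← mul_assoc, hs, one_mul]
        exact hq.2.le
    · intro w hw
      have hw0 : w ≠ 0 := by
        rintro rfl
        apply hw
        unfold be; simp
      have : ∃ s : ℝ, s * s = 1 ∧ 0 < s * be v w := by
        rcases lt_or_gt_of_ne hw with h | h
        · exact ⟨-1, by norm_num, by linarith⟩
        · exact ⟨1, by norm_num, by linarith⟩
      obtain ⟨s, hs, hsb⟩ := this
      obtain ⟨A, hA, hAl⟩ := hsides s hs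
      have main : ∀ r : ℝ, r ≠ 0 → sidePart f (x + t • v) w r = A.linear := by
        intro r hr
        apply hf.side_of_sig hA hw0 hr
        apply ev_ray x v hv s δ t ht ht2
        have tw : Tendsto (fun q : ℝ × ℝ => w + (r * q.2) • J w) small (𝓝 w) := by
          have hc : Continuous (fun q : ℝ × ℝ => w + (r * q.2) • J w) := by fun_prop
          have := hc.tendsto ((0 : ℝ), (0 : ℝ))
          simp only [mul_zero, zero_smul, add_zero] at this
          exact this.mono_left small_le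
        have tb := (((cont_be v).tendsto w).comp tw).const_mul s
        filter_upwards [tb.eventually (lt_mem_nhds hsb)] with q hq
        exact hq.le
      rw [main 1 one_ne_zero, main (-1) (by norm_num)]
  · intro y w hw h1 h2 h3 h4
    have : ∃ s : ℝ, s * s = 1 ∧ s * be v (y - x) = |be v (y - x)| := by
      rcases le_total 0 (be v (y - x)) with h | h
      · exact ⟨1, by norm_num, by rw [abs_of_nonneg h, one_mul]⟩
      · exact ⟨-1, by norm_num, by rw [abs_of_nonpos h]; ring⟩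
    obtain ⟨s, hs, hsb⟩ := this
    obtain ⟨A, hA, hAl⟩ := hsides s hs
    have main : ∀ r : ℝ, r ≠ 0 → sidePart f y w r = A.linear := by
      intro r hr
      apply hf.side_of_sig hA hw hr
      exact ev_open x v s δ y w r h1 h2 (by rw [hsb]; exact h3) (by rw [hsb]; exact h4)
    rw [main 1 one_ne_zero, main (-1) (by norm_num)]
  · intro w h1 h3 h4
    have hw0 : w ≠ 0 := by
      rintro rfl
      apply lt_irrefl (0 : ℝ)
      have : al v 0 = 0 := by unfold al; simp
      rwa [this] at h1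
    have : ∃ s : ℝ, s * s = 1 ∧ s * be v w = |be v w| := by
      rcases le_total 0 (be v w) with h | h
      · exact ⟨1, by norm_num, by rw [abs_of_nonneg h, one_mul]⟩
      · exact ⟨-1, by norm_num, by rw [abs_of_nonpos h]; ring⟩
    obtain ⟨s, hs, hsb⟩ := this
    obtain ⟨A, hA, hAl⟩ := hsides s hs
    have main : ∀ r : ℝ, r ≠ 0 → sidePart f x w r = A.linear := by
      intro r hr
      apply hf.side_of_sig hA hw0 hr
      exact ev_apex x v hv s δ hs hδ w r h1 (by rw [hsb]; exact h3) (by rw [hsb]; exact h4)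
    rw [main 1 one_ne_zero, main (-1) (by norm_num)]

/-- Far away everything is the identity. -/
lemma Nice.far {f : ℝ × ℝ → ℝ × ℝ} (hf : Nice f) : ∃ R : ℝ, ∀ x, R < ‖x‖ →
    ∀ w : ℝ × ℝ, w ≠ 0 → sidePart f x w 1 = sidePart f x w (-1) := by
  obtain ⟨R, hR⟩ := hf.supp
  refine ⟨R, fun x hx w hw => ?_⟩
  have main : ∀ r : ℝ, r ≠ 0 → sidePart f x w r = (AffineMap.id ℝ (ℝ × ℝ)).linear := by
    intro r hr
    apply hf.side hw hr
    have hopen : {y : ℝ × ℝ | R < ‖y‖} ∈ 𝓝 x :=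
      (isOpen_lt continuous_const continuous_norm).mem_nhds hx
    filter_upwards [(tendsto_tp x w r).eventually hopen] with q hq
    rw [hR _ hq]; rfl
  rw [main 1 one_ne_zero, main (-1) (by norm_num)]

end Pool.Agent.Helper908Ray
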