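import Pool.Agent.helper908_ray.Side

set_option autoImplicit false

open Filter Topology Set

namespace Pool.Agent.Helper908Ray

/-- Telescoping of a step function on the line. -/
lemma telescope (T : Finset ℝ) (k l : ℝ → ℝ) (hkl : ∀ t, t ∉ T → k t = l t)
    (hr : ∀ t, ∃ δ : ℝ, 0 < δ ∧ ∀ t', t < t' → t' < t + δ → k t' = k t)
    (hl : ∀ t, ∃ δ : ℝ, 0 < δ ∧ ∀ t', t - δ < t' → t' < t → k t' = l t)
    (hfar : ∃ R : ℝ, ∀ t, R < |t| → k t = 0) : ∑ t ∈ T, (k t - l t) = 0 := by
  classical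
  let Φ : ℝ → ℝ := fun t => k t - ∑ s ∈ T.filter (fun s => s ≤ t), (k s - l s)
  have hloc : IsLocallyConstant Φ := by
    rw [IsLocallyConstant.iff_eventually_eq]
    intro t
    obtain ⟨δ₁, hδ₁, h₁⟩ := hr t
    obtain ⟨δ₂, hδ₂, h₂⟩ := hl t
    have hT : ∀ᶠ t' in 𝓝 t, ∀ s ∈ T, s ≠ t → |t' - t| < |s - t| := by
      rw [Filter.eventually_all_finset]
      intro s _
      by_cases hs : s = t
      · exact Eventually.of_forall fun _ h => absurd hs h
      · have hpos : 0 < |s - t| := abs_pos.mpr (sub_ne_zero.mpr hs)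
        have hc : Tendsto (fun t' : ℝ => |t' - t|) (𝓝 t) (𝓝 0) := by
          have : Continuous (fun t' : ℝ => |t' - t|) := by fun_prop
          simpa using this.tendsto t
        filter_upwards [hc.eventually (gt_mem_nhds hpos)] with t' ht' _
        exact ht'
    have hI : ∀ᶠ t' in 𝓝 t, t - δ₂ < t' ∧ t' < t + δ₁ :=
      Ioo_mem_nhds (by linarith) (by linarith)
    filter_upwards [hT, hI] with t' h3 h4
    rcases lt_trichotomy t' t with h | h | h
    · -- left
      have hk : k t' = l t := h₂ t' h4.1 h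
      have hf : T.filter (fun s => s ≤ t') = (T.filter (fun s => s ≤ t)).erase t := by
        ext s
        simp only [Finset.mem_filter, Finset.mem_erase]
        constructor
        · rintro ⟨hs, hs2⟩
          exact ⟨(lt_of_le_of_lt hs2 h).ne, hs, (hs2.trans h.le)⟩
        · rintro ⟨hs0, hs, hs2⟩
          refine ⟨hs, ?_⟩
          have h5 := h3 s hs hs0
          rw [abs_of_neg (by linarith), abs_of_nonpos (by linarith)] at h5
          linarith
      by_cases htT : t ∈ T
      · have hmem : t ∈ T.filter (fun s => s ≤ t) := by simp [htT]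
        have := Finset.add_sum_erase (T.filter (fun s => s ≤ t)) (fun s => k s - l s) hmem
        simp only [Φ, hf, hk]
        linarith
      · have hnm : t ∉ T.filter (fun s => s ≤ t) := by simp [htT]
        simp only [Φ, hf, hk, Finset.erase_eq_of_notMem hnm, hkl t htT]
    · rw [h]
    · have hk : k t' = k t := h₁ t' h h4.2
      have hf : T.filter (fun s => s ≤ t') = T.filter (fun s => s ≤ t) := by
        ext s
        simp only [Finset.mem_filter]
        constructor
        · rintro ⟨hs, hs2⟩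
          refine ⟨hs, ?_⟩
          by_contra hlt
          push Not at hlt
          have h5 := h3 s hs hlt.ne'
          rw [abs_of_pos (by linarith), abs_of_pos (by linarith)] at h5
          linarith
        · rintro ⟨hs, hs2⟩
          exact ⟨hs, hs2.trans h.le⟩
      simp only [Φ, hf, hk]
  obtain ⟨R, hR⟩ := hfar
  obtain ⟨M, hM⟩ : ∃ M : ℝ, 0 < M ∧ R < M ∧ ∀ s ∈ T, |s| < M := by
    refine ⟨max (max R 0) (∑ s ∈ T, |s|) + 1, ?_, ?_, ?_⟩
    · have := le_max_left (max R 0) (∑ s ∈ T, |s|)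
      have := le_max_right R 0
      linarith
    · have := le_max_left (max R 0) (∑ s ∈ T, |s|)
      have := le_max_left R 0
      linarith
    · intro s hs
      have h1 : |s| ≤ ∑ s ∈ T, |s| := Finset.single_le_sum (f := fun s => |s|)
        (fun i _ => abs_nonneg i) hs
      have := le_max_right (max R 0) (∑ s ∈ T, |s|)
      linarith
  have hc := hloc.apply_eq_of_preconnectedSpace M (-M)
  have e1 : Φ (-M) = 0 := by
    have : T.filter (fun s => s ≤ -M) = ∅ := by
      rw [Finset.filter_eq_empty_iff]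
      intro s hs h
      have := hM.2.2 s hs
      rw [abs_lt] at this
      linarith
    simp only [Φ, this, Finset.sum_empty, sub_zero]
    apply hR
    rw [abs_neg, abs_of_pos hM.1]
    exact hM.2.1
  have e2 : Φ M = - ∑ t ∈ T, (k t - l t) := by
    have : T.filter (fun s => s ≤ M) = T := by
      rw [Finset.filter_eq_self]
      intro s hs
      have := hM.2.2 s hs
      rw [abs_lt] at this
      linarith
    simp only [Φ, this]
    rw [hR M (by rw [abs_of_pos hM.1]; exact hM.2.1)]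
    ring
  rw [e1, e2] at hc
  linarith

/-- Unit directions. -/
abbrev Dir : Type := {v : ℝ × ℝ // v.1 ^ 2 + v.2 ^ 2 = 1}

/-- The opposite direction. -/
def Dir.op (v : Dir) : Dir := ⟨-v.1, by have := v.2; simp only [Prod.fst_neg, Prod.snd_neg, neg_sq]; exact this⟩

lemma Dir.op_op (v : Dir) : v.op.op = v := by
  apply Subtype.ext; simp [Dir.op]

lemma Dir.ne (v : Dir) : v.1 ≠ 0 := by
  intro h
  have := v.2
  rw [h] at this
  simp at this

lemma Dir.op_ne (v : Dir) : v.op ≠ v := by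
  intro h
  have h1 := congrArg Subtype.val h
  simp only [Dir.op] at h1
  apply v.ne
  exact neg_eq_self.mp h1

/-- Abstract summation. `K x v` is the contribution of the ray in direction `v` at `x`. -/
structure Sys (K : ℝ × ℝ → Dir → ℝ) (Kb : ℝ × ℝ → Dir → ℝ) : Prop where
  ray : ∀ x v, ∃ δ : ℝ, 0 < δ ∧ ∀ t, 0 < t → t < δ →
    K (x + t • v.1) v = K x v ∧ K (x + t • v.1) v.op = Kb x v ∧
    ∀ w : Dir, w ≠ v → w ≠ v.op → K (x + t • v.1) w = 0
  off : ∀ x (v : Dir), ∃ δ : ℝ, 0 < δ ∧ (∀ (y : ℝ × ℝ) (w : Dir), 0 < al v.1 (y - x) →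
      al v.1 (y - x) < δ → 0 < |be v.1 (y - x)| → |be v.1 (y - x)| < δ * al v.1 (y - x) →
      K y w = 0) ∧
    (∀ w : Dir, 0 < al v.1 w.1 → 0 < |be v.1 w.1| → |be v.1 w.1| < δ * al v.1 w.1 → K x w = 0)
  far : ∃ R : ℝ, ∀ x, R < ‖x‖ → ∀ w, K x w = 0

lemma al_unit (v : Dir) (z : ℝ × ℝ) : al v.1 z = z.1 * v.1.1 + z.2 * v.1.2 := by
  unfold al; rw [v.2, div_one]

lemma be_unit (v : Dir) (z : ℝ × ℝ) : be v.1 z = z.2 * v.1.1 - z.1 * v.1.2 := by
  unfold be; rw [v.2, div_one]

lemma al_self (v : Dir) : al v.1 v.1 = 1 := by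
  rw [al_unit]; have := v.2; nlinarith

lemma be_self (v : Dir) : be v.1 v.1 = 0 := by
  rw [be_unit]; ring

/-- Unit circle compactness: a covering by open double sectors. -/
lemma cover (δ : Dir → ℝ) (hδ : ∀ v, 0 < δ v) :
    ∃ F : Finset Dir, ∀ w : Dir, ∃ v ∈ F, 0 < al v.1 w.1 ∧ |be v.1 w.1| < δ v * al v.1 w.1 := by
  have hcomp : IsCompact {v : ℝ × ℝ | v.1 ^ 2 + v.2 ^ 2 = 1} := by
    apply Metric.isCompact_of_isClosed_isBounded
    · exact isClosed_eq (by fun_prop) continuous_const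
    · rw [isBounded_iff_forall_norm_le]
      refine ⟨1, fun v hv => ?_⟩
      have hv' : v.1 ^ 2 + v.2 ^ 2 = 1 := hv
      rw [Prod.norm_def, max_le_iff, Real.norm_eq_abs, Real.norm_eq_abs]
      constructor
      · rw [abs_le_one_iff_mul_self_le_one]; nlinarith [sq_nonneg v.2]
      · rw [abs_le_one_iff_mul_self_le_one]; nlinarith [sq_nonneg v.1]
  have hopen : ∀ v : Dir, IsOpen {w : ℝ × ℝ | 0 < al v.1 w ∧ |be v.1 w| < δ v * al v.1 w} := by
    intro v
    apply IsOpen.inter
    · exact isOpen_lt continuous_const (cont_al v.1)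
    · exact isOpen_lt (cont_be v.1).abs ((cont_al v.1).const_mul (δ v) |>.congr (fun _ => rfl))
  have hcov : {v : ℝ × ℝ | v.1 ^ 2 + v.2 ^ 2 = 1} ⊆
      ⋃ v : Dir, {w : ℝ × ℝ | 0 < al v.1 w ∧ |be v.1 w| < δ v * al v.1 w} := by
    intro w hw
    rw [mem_iUnion]
    refine ⟨⟨w, hw⟩, ?_⟩
    have h1 := al_self ⟨w, hw⟩
    have h2 := be_self ⟨w, hw⟩
    simp only at h1 h2
    refine ⟨by rw [h1]; exact one_pos, ?_⟩
    rw [h1, h2, abs_zero, mul_one]
    exact hδ _
  obtain ⟨F, hF⟩ := hcomp.elim_finite_subcover _ hopen hcov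
  refine ⟨F, fun w => ?_⟩
  have := hF w.2
  simp only [mem_iUnion] at this
  obtain ⟨v, hv, h⟩ := this
  exact ⟨v, hv, h.1, h.2⟩

lemma eq_of_be (v w : Dir) (h1 : 0 < al v.1 w.1) (h2 : be v.1 w.1 = 0) : w = v := by
  apply Subtype.ext
  have h := decomp v.1 v.ne w.1
  rw [h2, zero_smul, add_zero] at h
  have hn : (al v.1 w.1) ^ 2 = 1 := by
    have h3 := w.2
    rw [h] at h3
    simp only [Prod.smul_fst, Prod.smul_snd, smul_eq_mul] at h3
    have h4 := v.2
    nlinarith
  have h1' : al v.1 w.1 = 1 := by nlinarith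
  rw [h1', one_smul] at h
  exact h

namespace Sys

variable {K Kb : ℝ × ℝ → Dir → ℝ} (H : Sys K Kb)
include H

lemma fin_dir (x : ℝ × ℝ) : {v : Dir | K x v ≠ 0}.Finite := by
  choose δ hδ _ h2 using fun v => H.off x v
  obtain ⟨F, hF⟩ := cover δ hδ
  apply F.finite_toSet.subset
  intro w hw
  obtain ⟨v, hv, h3, h4⟩ := hF w
  by_cases hb : be v.1 w.1 = 0
  · rw [eq_of_be v w h3 hb]
    exact hv
  · exact absurd (h2 v w h3 (abs_pos.mpr hb) h4) hw

/-- The sum of contributions along a ray. -/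
lemma ray_sum (x : ℝ × ℝ) (v : Dir) : ∃ δ : ℝ, 0 < δ ∧ ∀ t, 0 < t → t < δ →
    ∑ᶠ w, K (x + t • v.1) w = K x v + Kb x v := by
  obtain ⟨δ, hδ, h⟩ := H.ray x v
  refine ⟨δ, hδ, fun t h1 h2 => ?_⟩
  obtain ⟨a, b, c⟩ := h t h1 h2
  classical
  have hsub : Function.support (fun w => K (x + t • v.1) w) ⊆ (({v, v.op} : Finset Dir) : Set Dir) := by
    intro w hw
    simp only [Finset.coe_insert, Finset.coe_singleton, mem_insert_iff, mem_singleton_iff]
    by_contra hne
    push Not at hne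
    exact hw (c w hne.1 hne.2)
  rw [finsum_eq_sum_of_support_subset _ hsub, Finset.sum_pair v.op_ne.symm, a, b]

lemma back (hfin : (Function.support fun x => ∑ᶠ w, K x w).Finite) (x : ℝ × ℝ) (v : Dir) :
    Kb x v = - K x v := by
  by_contra hne
  have hne' : K x v + Kb x v ≠ 0 := fun h => hne (by linarith)
  obtain ⟨δ, hδ, h⟩ := H.ray_sum x v
  have hinj : Set.InjOn (fun t : ℝ => x + t • v.1) (Ioo 0 δ) := by
    intro t _ t' _ h
    have h1 : (t - t') • v.1 = 0 := by
      have h2 : x + t • v.1 = x + t' • v.1 := h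
      have h3 := add_left_cancel h2
      rw [sub_smul, h3, sub_self]
    rcases smul_eq_zero.mp h1 with h2 | h2
    · linarith
    · exact absurd h2 v.ne
  have hinf : ((fun t : ℝ => x + t • v.1) '' Ioo 0 δ).Infinite :=
    (Set.Ioo_infinite hδ).image hinj
  apply hinf
  apply hfin.subset
  rintro y ⟨t, ht, rfl⟩
  simp only [Function.mem_support]
  rw [h t ht.1 ht.2]
  exact hne'

/-- The vertices. -/
def Vert (K : ℝ × ℝ → Dir → ℝ) : Set (ℝ × ℝ) := {x | ∃ v : Dir, K x v + K x v.op ≠ 0}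

end Sys

lemma vert_iso {K Kb : ℝ × ℝ → Dir → ℝ} (H : Sys K Kb)
    (hb : ∀ x v, Kb x v = - K x v) (x : ℝ × ℝ) :
    ∀ᶠ y in 𝓝[≠] x, y ∉ Sys.Vert K := by
  choose δ₁ hδ₁ h₁ using fun v => H.ray x v
  choose δ₂ hδ₂ h₂ _ using fun v => H.off x v
  obtain ⟨F, hF⟩ := cover δ₂ hδ₂
  have hev : ∀ᶠ y in 𝓝 x, ∀ v ∈ F, al v.1 (y - x) < δ₁ v ∧ al v.1 (y - x) < δ₂ v := by
    rw [Filter.eventually_all_finset]
    intro v _
    have hc : Tendsto (fun y => al v.1 (y - x)) (𝓝 x) (𝓝 0) := by
      have hcc : Continuous (fun y => al v.1 (y - x)) :=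
        (cont_al v.1).comp (continuous_id.sub continuous_const)
      have := hcc.tendsto x
      have e : al v.1 (x - x) = 0 := by rw [sub_self]; unfold al; simp
      rwa [e] at this
    filter_upwards [hc.eventually (gt_mem_nhds (hδ₁ v)), hc.eventually (gt_mem_nhds (hδ₂ v))]
      with y a b
    exact ⟨a, b⟩
  filter_upwards [nhdsWithin_le_nhds hev, eventually_mem_nhdsWithin] with y hy hne
  have hz : y - x ≠ 0 := sub_ne_zero.mpr hne
  -- the direction from x to y
  set r := Real.sqrt ((y - x).1 ^ 2 + (y - x).2 ^ 2) with hr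
  have hN : 0 < (y - x).1 ^ 2 + (y - x).2 ^ 2 :=
    lt_of_le_of_ne (by positivity) (Ne.symm (nsq_ne _ hz))
  have hrpos : 0 < r := Real.sqrt_pos.mpr hN
  have hr2 : r ^ 2 = (y - x).1 ^ 2 + (y - x).2 ^ 2 := Real.sq_sqrt hN.le
  let w : Dir := ⟨r⁻¹ • (y - x), by
    simp only [Prod.smul_fst, Prod.smul_snd, smul_eq_mul, mul_pow, ← mul_add, ← hr2]
    field_simp⟩
  have hyw : y - x = r • w.1 := by
    simp only [w, smul_smul, mul_inv_cancel₀ hrpos.ne', one_smul]
  obtain ⟨v, hv, h3, h4⟩ := hF w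
  have hal : al v.1 (y - x) = r * al v.1 w.1 := by rw [hyw, al_smul]
  have hbe : be v.1 (y - x) = r * be v.1 w.1 := by rw [hyw, be_smul]
  have halpos : 0 < al v.1 (y - x) := by rw [hal]; exact mul_pos hrpos h3
  rintro ⟨u, hu⟩
  apply hu
  by_cases hbz : be v.1 w.1 = 0
  · have hwv := eq_of_be v w h3 hbz
    have hy2 : y = x + r • v.1 := by
      have : y - x = r • v.1 := by rw [hyw, hwv]
      rw [← this]; simp
    have hrlt : r < δ₁ v := by
      have := (hy v hv).1
      rw [hal, hwv, al_self, mul_one] at this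
      exact this
    obtain ⟨a, b, c⟩ := h₁ v r hrpos hrlt
    rw [← hy2] at a b c
    by_cases hu1 : u = v
    · rw [hu1, a, b, hb]; ring
    · by_cases hu2 : u = v.op
      · rw [hu2, Dir.op_op, a, b, hb]; ring
      · have hu3 : u.op ≠ v := fun h => hu2 (by rw [← h, Dir.op_op])
        have hu4 : u.op ≠ v.op := fun h => hu1 (by rw [← Dir.op_op u, h, Dir.op_op])
        rw [c u hu1 hu2, c u.op hu3 hu4, add_zero]
  · have hbpos : 0 < |be v.1 (y - x)| := by
      rw [hbe]; exact abs_pos.mpr (mul_ne_zero hrpos.ne' hbz)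
    have hblt : |be v.1 (y - x)| < δ₂ v * al v.1 (y - x) := by
      rw [hbe, hal, abs_mul, abs_of_pos hrpos]
      nlinarith
    have hK : ∀ u, K y u = 0 := fun u => h₂ v y u halpos (hy v hv).2 hbpos hblt
    rw [hK, hK, add_zero]

lemma vert_fin {K Kb : ℝ × ℝ → Dir → ℝ} (H : Sys K Kb)
    (hb : ∀ x v, Kb x v = - K x v) : (Sys.Vert K).Finite := by
  by_contra hinf
  obtain ⟨R, hR⟩ := H.far
  have hsub : Sys.Vert K ⊆ Metric.closedBall (0 : ℝ × ℝ) R := by
    rintro x ⟨v, hv⟩
    rw [mem_closedBall_zero_iff]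
    by_contra hlt
    push Not at hlt
    apply hv
    rw [hR x hlt, hR x hlt, add_zero]
  obtain ⟨x, _, hx⟩ := Set.Infinite.exists_accPt_of_subset_isCompact hinf
    (isCompact_closedBall (0 : ℝ × ℝ) R) hsub
  rw [accPt_iff_frequently_nhdsNE] at hx
  exact hx (vert_iso H hb x)

/-- The sum over a line. -/
lemma sum_dir {K Kb : ℝ × ℝ → Dir → ℝ} (H : Sys K Kb)
    (hb : ∀ x v, Kb x v = - K x v) (V : Finset (ℝ × ℝ)) (hV : ∀ x, x ∈ V ↔ x ∈ Sys.Vert K)
    (v : Dir) : ∑ x ∈ V, (K x v + K x v.op) = 0 := by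
  classical
  let ℓ : ℝ × ℝ → ℝ := fun x => be v.1 x
  let τ : ℝ × ℝ → ℝ := fun x => al v.1 x
  rw [← Finset.sum_fiberwise_of_maps_to (g := ℓ) (t := V.image ℓ)
    (fun x hx => Finset.mem_image_of_mem ℓ hx)]
  apply Finset.sum_eq_zero
  intro c _
  let pt : ℝ → ℝ × ℝ := fun t => t • v.1 + c • J v.1
  have hpt : ∀ x, ℓ x = c → pt (τ x) = x := by
    intro x hx
    simp only [pt, τ]
    rw [← hx]
    exact (decomp v.1 v.ne x).symm
  have hτ : ∀ t, τ (pt t) = t := fun t => al_comb v.1 v.ne t c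
  have hℓ : ∀ t, ℓ (pt t) = c := fun t => be_comb v.1 v.ne t c
  set Vc := V.filter (fun x => ℓ x = c) with hVc
  have hinj : Set.InjOn τ Vc := by
    intro x hx y hy h
    rw [hVc, Finset.coe_filter] at hx hy
    rw [← hpt x hx.2, ← hpt y hy.2, h]
  have e1 : ∑ x ∈ Vc, (K x v + K x v.op) =
      ∑ t ∈ Vc.image τ, (K (pt t) v - (- K (pt t) v.op)) := by
    rw [Finset.sum_image hinj]
    apply Finset.sum_congr rfl
    intro x hx
    rw [hVc, Finset.mem_filter] at hx
    rw [hpt x hx.2]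
    ring
  rw [e1]
  apply telescope
  · intro t ht
    by_contra hne
    apply ht
    rw [Finset.mem_image]
    refine ⟨pt t, ?_, hτ t⟩
    rw [hVc, Finset.mem_filter, hV]
    refine ⟨⟨v, fun h => hne (by linarith)⟩, hℓ t⟩
  · intro t
    obtain ⟨δ, hδ, h⟩ := H.ray (pt t) v
    refine ⟨δ, hδ, fun t' h1 h2 => ?_⟩
    have := (h (t' - t) (by linarith) (by linarith)).1
    have e : pt t + (t' - t) • v.1 = pt t' := by simp only [pt]; module
    rwa [e] at this
  · intro t
    obtain ⟨δ, hδ, h⟩ := H.ray (pt t) v.op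
    refine ⟨δ, hδ, fun t' h1 h2 => ?_⟩
    have := (h (t - t') (by linarith) (by linarith)).2.1
    have e : pt t + (t - t') • v.op.1 = pt t' := by simp only [pt, Dir.op]; module
    rw [e, Dir.op_op, hb] at this
    exact this
  · obtain ⟨R, hR⟩ := H.far
    refine ⟨2 * |R| + 1, fun t ht => ?_⟩
    apply hR
    by_contra hle
    push Not at hle
    have h1 : |t| ≤ 2 * ‖pt t‖ := by
      have e : t = (pt t).1 * v.1.1 + (pt t).2 * v.1.2 := by
        rw [← al_unit]; exact (hτ t).symm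
      have hv1 : |v.1.1| ≤ 1 := by
        rw [abs_le_one_iff_mul_self_le_one]; nlinarith [sq_nonneg v.1.2, v.2]
      have hv2 : |v.1.2| ≤ 1 := by
        rw [abs_le_one_iff_mul_self_le_one]; nlinarith [sq_nonneg v.1.1, v.2]
      have hp1 : |(pt t).1| ≤ ‖pt t‖ := norm_fst_le (pt t)
      have hp2 : |(pt t).2| ≤ ‖pt t‖ := norm_snd_le (pt t)
      calc |t| = |(pt t).1 * v.1.1 + (pt t).2 * v.1.2| := by rw [← e]
        _ ≤ |(pt t).1 * v.1.1| + |(pt t).2 * v.1.2| := abs_add_le _ _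
        _ = |(pt t).1| * |v.1.1| + |(pt t).2| * |v.1.2| := by rw [abs_mul, abs_mul]
        _ ≤ ‖pt t‖ * 1 + ‖pt t‖ * 1 := by
            apply add_le_add
            · exact mul_le_mul hp1 hv1 (abs_nonneg _) (norm_nonneg _)
            · exact mul_le_mul hp2 hv2 (abs_nonneg _) (norm_nonneg _)
        _ = 2 * ‖pt t‖ := by ring
    have h2 : ‖pt t‖ ≤ |R| := hle.trans (le_abs_self R)
    linarith

/-- The total sum vanishes. -/
theorem total {K Kb : ℝ × ℝ → Dir → ℝ} (H : Sys K Kb)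
    (hfin : (Function.support fun x => ∑ᶠ w, K x w).Finite) : ∑ᶠ x, ∑ᶠ w, K x w = 0 := by
  classical
  have hb := H.back hfin
  have hVf := vert_fin H hb
  set V := hVf.toFinset with hV
  have hmem : ∀ x, x ∈ V ↔ x ∈ Sys.Vert K := fun x => by rw [hV, Set.Finite.mem_toFinset]
  -- twice the local sum
  have htwice : ∀ x, 2 * ∑ᶠ w, K x w = ∑ᶠ w : Dir, (K x w + K x w.op) := by
    intro x
    have hf1 := H.fin_dir x
    let e : Dir ≃ Dir := ⟨Dir.op, Dir.op, Dir.op_op, Dir.op_op⟩
    have hre : ∑ᶠ w : Dir, K x w.op = ∑ᶠ w, K x w :=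
      finsum_comp_equiv e (f := fun w => K x w)
    have hf2 : (Function.support fun w : Dir => K x w.op).Finite := by
      have : (Function.support fun w : Dir => K x w.op) = e ⁻¹' {v : Dir | K x v ≠ 0} := rfl
      rw [this]
      exact hf1.preimage e.injective.injOn
    rw [finsum_add_distrib hf1 hf2, hre]
    ring
  have hsub : (Function.support fun x => ∑ᶠ w, K x w) ⊆ (V : Set (ℝ × ℝ)) := by
    intro x hx
    rw [Finset.mem_coe, hmem]
    by_contra hnv
    apply hx
    have h0 : ∀ w : Dir, K x w + K x w.op = 0 := by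
      intro w
      by_contra hne
      exact hnv ⟨w, hne⟩
    have := htwice x
    simp only [h0, finsum_zero] at this
    linarith
  rw [finsum_eq_sum_of_support_subset _ hsub]
  -- common finite set of directions
  let e : Dir ≃ Dir := ⟨Dir.op, Dir.op, Dir.op_op, Dir.op_op⟩
  have hg : ∀ x, (Function.support fun w : Dir => K x w + K x w.op).Finite := by
    intro x
    have hf1 := H.fin_dir x
    have hf2 : (Function.support fun w : Dir => K x w.op).Finite := by
      have : (Function.support fun w : Dir => K x w.op) = e ⁻¹' {v : Dir | K x v ≠ 0} := rfl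
      rw [this]
      exact hf1.preimage e.injective.injOn
    exact (hf1.union hf2).subset (Function.support_add _ _)
  have h2 : 2 * ∑ x ∈ V, ∑ᶠ w, K x w = 0 := by
    rw [Finset.mul_sum]
    simp only [htwice]
    let Θ : Finset Dir := V.biUnion (fun x => (hg x).toFinset)
    have : ∀ x ∈ V, ∑ᶠ w : Dir, (K x w + K x w.op) = ∑ w ∈ Θ, (K x w + K x w.op) := by
      intro x hx
      apply finsum_eq_sum_of_support_subset
      intro w hw
      rw [Finset.mem_coe, Finset.mem_biUnion]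
      exact ⟨x, hx, (Set.Finite.mem_toFinset _).mpr hw⟩
    rw [Finset.sum_congr rfl this, Finset.sum_comm]
    apply Finset.sum_eq_zero
    intro w _
    exact sum_dir H hb V hmem w
  linarith

end Pool.Agent.Helper908Ray
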